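import Pool.Agent.H41.ENL.Schrijver

/-!
# The alternation bounds for the chromatic number of general Kneser graphs
-/

namespace Pool.Agent.H50.ELT

open Finset Pool.Agent.H41.ENL

section

variable {V : Type*} [Fintype V] {n N : ℕ}

open Classical in
/-- The largest colour (plus one) of a member inside `A`. -/
noncomputable def tp (S : V → Finset (Fin n)) (c : V → ℕ) (A : Finset (Fin n)) : ℕ :=
  (univ.filter (fun v => S v ⊆ A)).sup (fun v => c v + 1)

theorem tp_mono (S : V → Finset (Fin n)) (c : V → ℕ) {A A' : Finset (Fin n)} (h : A ⊆ A') :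
    tp S c A ≤ tp S c A' := by
  classical
  unfold tp
  refine Finset.sup_mono ?_
  intro v hv
  rw [Finset.mem_filter] at hv ⊢
  exact ⟨hv.1, hv.2.trans h⟩

theorem tp_spec (S : V → Finset (Fin n)) (c : V → ℕ) {A : Finset (Fin n)} (h : 0 < tp S c A) :
    ∃ v, S v ⊆ A ∧ c v + 1 = tp S c A := by
  classical
  unfold tp at h ⊢
  have hne : (univ.filter (fun v => S v ⊆ A)).Nonempty := by
    by_contra hne
    rw [Finset.not_nonempty_iff_eq_empty] at hne
    rw [hne] at h
    simp at h
  obtain ⟨v, hv, hv2⟩ := Finset.exists_mem_eq_sup _ hne (fun v => c v + 1)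
  exact ⟨v, (Finset.mem_filter.1 hv).2, hv2.symm⟩

theorem tp_pos (S : V → Finset (Fin n)) (c : V → ℕ) {A : Finset (Fin n)} {v : V} (h : S v ⊆ A) :
    c v + 1 ≤ tp S c A := by
  classical
  unfold tp
  exact Finset.le_sup (f := fun v => c v + 1) (Finset.mem_filter.2 ⟨Finset.mem_univ v, h⟩)

theorem tp_le (S : V → Finset (Fin n)) (c : V → ℕ) (hc : ∀ v, c v < N) (A : Finset (Fin n)) :
    tp S c A ≤ N := by
  classical
  unfold tp
  exact Finset.sup_le fun v _ => hc v

theorem tp_ne (S : V → Finset (Fin n)) (c : V → ℕ)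
    (hc : ∀ u v, Disjoint (S u) (S v) → c u ≠ c v) {A B : Finset (Fin n)} (hd : Disjoint A B)
    (h : 0 < tp S c A) : tp S c A ≠ tp S c B := by
  intro heq
  obtain ⟨v, hv, hv2⟩ := tp_spec S c h
  obtain ⟨u, hu, hu2⟩ := tp_spec S c (heq ▸ h)
  exact hc v u (hd.mono hv hu) (by omega)

/-- The value of the Tucker map on the pairs with large alternation number. -/
noncomputable def fv (S : V → Finset (Fin n)) (c : V → ℕ) (k : ℕ) (A B : Finset (Fin n)) : ℤ :=
  if tp S c B < tp S c A then ((k + tp S c A : ℕ) : ℤ) else -((k + tp S c B : ℕ) : ℤ)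

theorem fv_abs (S : V → Finset (Fin n)) (c : V → ℕ) (k : ℕ) (A B : Finset (Fin n)) :
    |fv S c k A B| = ((k + max (tp S c A) (tp S c B) : ℕ) : ℤ) := by
  unfold fv
  split_ifs with h
  · rw [Nat.abs_cast, max_eq_left h.le]
  · rw [abs_neg, Nat.abs_cast, max_eq_right (not_lt.1 h)]

theorem fv_comm (S : V → Finset (Fin n)) (c : V → ℕ) (k : ℕ) {A B : Finset (Fin n)}
    (h : tp S c A ≠ tp S c B) : fv S c k B A = - fv S c k A B := by
  unfold fv
  rcases lt_or_gt_of_ne h with h1 | h1
  · rw [if_pos h1, if_neg h1.not_gt, neg_neg]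
  · rw [if_neg h1.not_gt, if_pos h1]

theorem fv_eq (S : V → Finset (Fin n)) (c : V → ℕ) (k : ℕ) {A B A' B' : Finset (Fin n)}
    (hAA : A ⊆ A') (hBB : B ⊆ B') (h : tp S c A ≠ tp S c B) (h' : tp S c A' ≠ tp S c B')
    (heq : max (tp S c A) (tp S c B) = max (tp S c A') (tp S c B')) :
    fv S c k A B = fv S c k A' B' := by
  have h1 := tp_mono S c hAA
  have h2 := tp_mono S c hBB
  unfold fv
  rcases lt_or_gt_of_ne h with h3 | h3
  · rw [max_eq_right h3.le] at heq
    rcases lt_or_gt_of_ne h' with h4 | h4
    · rw [max_eq_right h4.le] at heq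
      rw [if_neg h3.not_gt, if_neg h4.not_gt, heq]
    · rw [max_eq_left h4.le] at heq
      omega
  · rw [max_eq_left h3.le] at heq
    rcases lt_or_gt_of_ne h' with h4 | h4
    · rw [max_eq_right h4.le] at heq
      omega
    · rw [max_eq_left h4.le] at heq
      rw [if_pos h3, if_pos h4, heq]

/-- The general bound: `s = 0` (one side) or `s = 1` (both sides). -/
theorem gen_bound (S : V → Finset (Fin n)) {a s : ℕ}
    (c : V → ℕ) (hcN : ∀ v, c v < N) (hc : ∀ u v, Disjoint (S u) (S v) → c u ≠ c v)
    (hs : s < a) (hN : s ≤ N)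
    (hA : ∀ A B : Finset (Fin n), Disjoint A B → AltS A B a →
      s + 1 ≤ max (tp S c A) (tp S c B)) : n + s ≤ a - 1 + N := by
  classical
  have hbig : ∀ A B, Disjoint A B → (A ∪ B).Nonempty → a ≤ alt A B →
      s + 1 ≤ max (tp S c A) (tp S c B) := by
    intro A B hdis hne halt
    rcases (alt_spec hne).anti halt with h | h
    · exact hA A B hdis h
    · rw [max_comm]
      exact hA B A hdis.symm h
  have hne' : ∀ A B, Disjoint A B → s + 1 ≤ max (tp S c A) (tp S c B) →
      tp S c A ≠ tp S c B := by
    intro A B hdis hmax heq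
    rw [← heq, max_self] at hmax
    exact tp_ne S c hc hdis (by omega) heq
  let f : Finset (Fin n) → Finset (Fin n) → ℤ := fun A B =>
    if a ≤ alt A B then fv S c (a - 1 - s) A B else sgm A B * (alt A B : ℤ)
  have habs1 : ∀ A B, a ≤ alt A B →
      |f A B| = ((a - 1 - s + max (tp S c A) (tp S c B) : ℕ) : ℤ) := by
    intro A B halt
    simp only [f]
    rw [if_pos halt, fv_abs]
  have habs2 : ∀ A B, ¬ a ≤ alt A B → |f A B| = alt A B := by
    intro A B halt
    simp only [f, if_neg halt]
    rw [abs_mul, sgm_abs, one_mul, Nat.abs_cast]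
  have key : n ≤ a - 1 - s + N := by
    refine tucker f ?_ ?_
    · intro A B hdis hne
      have hpos := alt_pos hne
      by_cases halt : a ≤ alt A B
      · have hmax := hbig A B hdis hne halt
        refine ⟨?_, ?_, ?_⟩
        · simp only [f]
          rw [alt_comm A B, if_pos halt, if_pos halt]
          exact fv_comm S c _ (hne' A B hdis hmax)
        · rw [habs1 A B halt]
          have : 1 ≤ a - 1 - s + max (tp S c A) (tp S c B) := by omega
          exact_mod_cast this
        · rw [habs1 A B halt]
          have h1 : max (tp S c A) (tp S c B) ≤ N := max_le (tp_le S c hcN A) (tp_le S c hcN B)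
          have : a - 1 - s + max (tp S c A) (tp S c B) ≤ a - 1 - s + N := by omega
          exact_mod_cast this
      · refine ⟨?_, ?_, ?_⟩
        · simp only [f]
          rw [alt_comm A B, if_neg halt, if_neg halt, sgm_comm hdis hne]
          ring
        · rw [habs2 A B halt]
          exact_mod_cast hpos
        · rw [habs2 A B halt]
          have : alt A B ≤ a - 1 - s + N := by omega
          exact_mod_cast this
    · intro A B A' B' hdis hne hdis' hAA hBB
      have hne2 : (A' ∪ B').Nonempty := hne.mono (Finset.union_subset_union hAA hBB)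
      have hle := alt_mono hne hAA hBB
      by_cases halt : a ≤ alt A B
      · have halt' : a ≤ alt A' B' := halt.trans hle
        have m1 := hbig A B hdis hne halt
        have m2 := hbig A' B' hdis' hne2 halt'
        have hmm : max (tp S c A) (tp S c B) ≤ max (tp S c A') (tp S c B') :=
          max_le_max (tp_mono S c hAA) (tp_mono S c hBB)
        rcases hmm.lt_or_eq with h1 | h1
        · right
          rw [habs1 A B halt, habs1 A' B' halt']
          have : a - 1 - s + max (tp S c A) (tp S c B) <
              a - 1 - s + max (tp S c A') (tp S c B') := by omega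
          exact_mod_cast this
        · left
          simp only [f]
          rw [if_pos halt, if_pos halt']
          exact fv_eq S c _ hAA hBB (hne' A B hdis m1) (hne' A' B' hdis' m2) h1
      · by_cases halt' : a ≤ alt A' B'
        · right
          have m2 := hbig A' B' hdis' hne2 halt'
          rw [habs2 A B halt, habs1 A' B' halt']
          have : alt A B < a - 1 - s + max (tp S c A') (tp S c B') := by omega
          exact_mod_cast this
        · rcases hle.lt_or_eq with h1 | h1
          · right
            rw [habs2 A B halt, habs2 A' B' halt']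
            exact_mod_cast h1
          · left
            simp only [f]
            rw [if_neg halt, if_neg halt', ← h1, sgm_mono hdis hdis' hne hAA hBB h1]
  omega

/-- One side. -/
theorem bound_one (S : V → Finset (Fin n)) {a : ℕ}
    (c : V → ℕ) (hcN : ∀ v, c v < N) (hc : ∀ u v, Disjoint (S u) (S v) → c u ≠ c v)
    (ha : 0 < a)
    (hA : ∀ A B : Finset (Fin n), Disjoint A B → AltS A B a →
      (∃ v, S v ⊆ A) ∨ ∃ v, S v ⊆ B) : n ≤ a - 1 + N := by
  refine gen_bound S (s := 0) c hcN hc ha (Nat.zero_le _) ?_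
  intro A B hdis h
  rcases hA A B hdis h with ⟨v, hv⟩ | ⟨v, hv⟩
  · have := tp_pos S c hv
    have := le_max_left (tp S c A) (tp S c B)
    omega
  · have := tp_pos S c hv
    have := le_max_right (tp S c A) (tp S c B)
    omega

/-- Both sides. -/
theorem bound_two (S : V → Finset (Fin n)) {a : ℕ}
    (c : V → ℕ) (hcN : ∀ v, c v < N) (hc : ∀ u v, Disjoint (S u) (S v) → c u ≠ c v)
    (ha : 1 < a) (hN : 1 ≤ N)
    (hA : ∀ A B : Finset (Fin n), Disjoint A B → AltS A B a →
      (∃ v, S v ⊆ A) ∧ ∃ v, S v ⊆ B) : n + 1 ≤ a - 1 + N := by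
  refine gen_bound S (s := 1) c hcN hc ha hN ?_
  intro A B hdis h
  obtain ⟨⟨v, hv⟩, ⟨u, hu⟩⟩ := hA A B hdis h
  have h1 := tp_pos S c hv
  have h2 := tp_pos S c hu
  have h3 := tp_ne S c hc hdis (by omega)
  have h4 := le_max_left (tp S c A) (tp S c B)
  have h5 := le_max_right (tp S c A) (tp S c B)
  omega

end

end Pool.Agent.H50.ELT
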