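import Mathlib

/-!
# Erdos-Lovasz Tihany conjecture: cheap cliques

If `K` is a clique with `a` vertices and `w` is a vertex outside `K` such that no vertex of the colour
class of `w` can be complete to `K`, then deleting `K` lowers the chromatic number by at most `a - 1`.
-/

namespace Pool.Agent.H50.ELT

open SimpleGraph

variable {V : Type*}

/-- The conclusion of the conjecture. -/
def Split (G : SimpleGraph V) (a b : ℕ) : Prop :=
  ∃ S T : Set V, Disjoint S T ∧
    (G.induce S).chromaticNumber = (a : ℕ∞) ∧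
    (G.induce T).chromaticNumber = (b : ℕ∞)

theorem Split.symm {G : SimpleGraph V} {a b : ℕ} (h : Split G a b) : Split G b a := by
  obtain ⟨S, T, h1, h2, h3⟩ := h
  exact ⟨T, S, h1.symm, h3, h2⟩

/-- Redistributing the colour class of `w` over the colours of `A`. -/
theorem colorable_of_missing (G : SimpleGraph V) (A : Set V) (a n : ℕ) (φ : V → Fin a)
    (hφ : ∀ u ∈ A, ∀ v ∈ A, G.Adj u v → φ u ≠ φ v) (w : V) (hw : w ∉ A)
    (h : ∀ u ∉ A, (u = w ∨ ¬ G.Adj w u) → ∃ c : Fin a, ∀ v ∈ A, φ v = c → ¬ G.Adj u v)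
    (hc : (G.induce Aᶜ).Colorable (n + 1)) : G.Colorable (n + a) := by
  classical
  obtain ⟨ψ⟩ := hc
  have hw' : w ∈ Aᶜ := hw
  set c0 := ψ ⟨w, hw'⟩ with hc0
  -- vertices in the colour class of `w`
  have key : ∀ u : V, ∃ x : {c : Fin (n + 1) // c ≠ c0} ⊕ Fin a,
      (∀ hu : u ∈ A, x = Sum.inr (φ u)) ∧
      (∀ hu : u ∈ Aᶜ, ∀ hne : ψ ⟨u, hu⟩ ≠ c0, x = Sum.inl ⟨ψ ⟨u, hu⟩, hne⟩) ∧
      (∀ hu : u ∈ Aᶜ, ψ ⟨u, hu⟩ = c0 → ∃ c : Fin a, x = Sum.inr c ∧
        ∀ v ∈ A, φ v = c → ¬ G.Adj u v) := by
    intro u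
    by_cases hu : u ∈ A
    · exact ⟨Sum.inr (φ u), fun _ => rfl, fun h' => absurd hu h', fun h' => absurd hu h'⟩
    · have hu' : u ∈ Aᶜ := hu
      by_cases hne : ψ ⟨u, hu'⟩ = c0
      · have h1 : u = w ∨ ¬ G.Adj w u := by
          by_cases hadj : G.Adj w u
          · exfalso
            have := ψ.valid (v := ⟨w, hw'⟩) (w := ⟨u, hu'⟩) (by simpa using hadj)
            exact this (by rw [hne])
          · exact Or.inr hadj
        obtain ⟨c, hcc⟩ := h u hu h1
        exact ⟨Sum.inr c, fun h' => absurd h' hu, fun _ h2 => absurd hne h2,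
          fun _ _ => ⟨c, rfl, hcc⟩⟩
      · exact ⟨Sum.inl ⟨ψ ⟨u, hu'⟩, hne⟩, fun h' => absurd h' hu, fun _ _ => rfl,
          fun _ h2 => absurd h2 hne⟩
  choose f hf1 hf2 hf3 using key
  have hcol : ∀ u v : V, G.Adj u v → f u ≠ f v := by
    -- the symmetric part: `u` outside `A` in the class of `w`
    have aux : ∀ u v : V, G.Adj u v → ∀ hu : u ∈ Aᶜ, ψ ⟨u, hu⟩ = c0 → f u ≠ f v := by
      intro u v huv hu hcu heq
      obtain ⟨c, hc1, hc2⟩ := hf3 u hu hcu
      by_cases hv : v ∈ A
      · rw [hc1, hf1 v hv] at heq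
        exact hc2 v hv (Sum.inr_injective heq).symm huv
      · have hv' : v ∈ Aᶜ := hv
        by_cases hcv : ψ ⟨v, hv'⟩ = c0
        · have := ψ.valid (v := ⟨u, hu⟩) (w := ⟨v, hv'⟩) (by simpa using huv)
          exact this (by rw [hcu, hcv])
        · rw [hc1, hf2 v hv' hcv] at heq
          exact Sum.inr_ne_inl heq
    intro u v huv
    by_cases hu : u ∈ A
    · by_cases hv : v ∈ A
      · rw [hf1 u hu, hf1 v hv]
        intro heq
        exact hφ u hu v hv huv (Sum.inr_injective heq)
      · have hv' : v ∈ Aᶜ := hv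
        by_cases hcv : ψ ⟨v, hv'⟩ = c0
        · exact (aux v u huv.symm hv' hcv).symm
        · rw [hf1 u hu, hf2 v hv' hcv]
          exact Sum.inr_ne_inl
    · have hu' : u ∈ Aᶜ := hu
      by_cases hcu : ψ ⟨u, hu'⟩ = c0
      · exact aux u v huv hu' hcu
      · by_cases hv : v ∈ A
        · rw [hf1 v hv, hf2 u hu' hcu]
          exact Sum.inl_ne_inr
        · have hv' : v ∈ Aᶜ := hv
          by_cases hcv : ψ ⟨v, hv'⟩ = c0
          · exact (aux v u huv.symm hv' hcv).symm
          · rw [hf2 v hv' hcv, hf2 u hu' hcu]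
            intro heq
            have h3 := Sum.inl_injective heq
            have h4 : ψ ⟨u, hu'⟩ = ψ ⟨v, hv'⟩ := congrArg Subtype.val h3
            exact ψ.valid (v := ⟨u, hu'⟩) (w := ⟨v, hv'⟩) (by simpa using huv) h4
  have C : G.Coloring ({c : Fin (n + 1) // c ≠ c0} ⊕ Fin a) := Coloring.mk f (fun {u v} h => hcol u v h)
  have hcard : Fintype.card ({c : Fin (n + 1) // c ≠ c0} ⊕ Fin a) = n + a := by
    simp [Fintype.card_subtype_compl]
  have := C.colorable
  rwa [hcard] at this

/-- A set which is not `(a-1)`-colourable contains a set of chromatic number exactly `a`. -/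
theorem exists_exact [Finite V] (G : SimpleGraph V) (S : Set V) (a : ℕ) (ha : 1 ≤ a)
    (h : ¬ (G.induce S).Colorable (a - 1)) :
    ∃ S' ⊆ S, (G.induce S').chromaticNumber = (a : ℕ∞) := by
  classical
  obtain ⟨S', hS', hmin⟩ := (Set.toFinite {T : Set V | T ⊆ S ∧ ¬ (G.induce T).Colorable (a - 1)}).exists_minimalFor
    Set.ncard _ ⟨S, subset_rfl, h⟩
  obtain ⟨hsub, hnc⟩ := hS'
  refine ⟨S', hsub, ?_⟩
  have hne : S'.Nonempty := by
    by_contra hne
    rw [Set.not_nonempty_iff_eq_empty] at hne
    apply hnc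
    subst hne
    have : IsEmpty ((∅ : Set V) : Type _) := by simp
    exact Colorable.of_isEmpty _
  obtain ⟨x, hx⟩ := hne
  have hcol : (G.induce (S' \ {x})).Colorable (a - 1) := by
    by_contra hcon
    have h1 := hmin ⟨Set.sdiff_subset.trans hsub, hcon⟩
      (Set.ncard_le_ncard Set.sdiff_subset (Set.toFinite _))
    have h2 : (S' \ {x}).ncard < S'.ncard := Set.ncard_sdiff_singleton_lt_of_mem hx (Set.toFinite _)
    omega
  obtain ⟨ψ⟩ := hcol
  have hcol' : (G.induce S').Colorable a := by
    let f : S' → Option (Fin (a - 1)) := fun u =>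
      if h : (u : V) = x then none else some (ψ ⟨u, u.2, h⟩)
    have hf : ∀ u v : S', (G.induce S').Adj u v → f u ≠ f v := by
      intro u v huv
      have huv' : G.Adj u v := huv
      simp only [f]
      by_cases hu : (u : V) = x
      · have hv : (v : V) ≠ x := by
          intro hv
          apply huv'.ne
          rw [hu, hv]
        simp [hu, hv]
      · by_cases hv : (v : V) = x
        · simp [hu, hv]
        · simp only [hu, hv, dif_neg, not_false_iff]
          intro heq
          exact ψ.valid (v := ⟨u, u.2, hu⟩) (w := ⟨v, v.2, hv⟩) (by simpa using huv')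
            (Option.some_injective _ heq)
    have C : (G.induce S').Coloring (Option (Fin (a - 1))) :=
      Coloring.mk f (fun {u v} h => hf u v h)
    have := C.colorable
    simp only [Fintype.card_option, Fintype.card_fin] at this
    rwa [Nat.sub_add_cancel ha] at this
  apply le_antisymm
  · exact chromaticNumber_le_iff_colorable.2 hcol'
  · by_contra hlt
    rw [not_le] at hlt
    apply hnc
    rw [← chromaticNumber_le_iff_colorable]
    have : (a : ℕ∞) = ((a - 1 : ℕ) : ℕ∞) + 1 := by
      have : a = (a - 1) + 1 := by omega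
      exact_mod_cast this
    rw [this] at hlt
    exact (ENat.lt_add_one_iff (ENat.natCast_ne_top _)).1 hlt

theorem split_of [Finite V] (G : SimpleGraph V) (S T : Set V) (a b : ℕ) (ha : 1 ≤ a) (hb : 1 ≤ b)
    (hd : Disjoint S T) (hS : ¬ (G.induce S).Colorable (a - 1))
    (hT : ¬ (G.induce T).Colorable (b - 1)) : Split G a b := by
  obtain ⟨S', hS', hS2⟩ := exists_exact G S a ha hS
  obtain ⟨T', hT', hT2⟩ := exists_exact G T b hb hT
  exact ⟨S', T', hd.mono hS' hT', hS2, hT2⟩

/-- The basic splitting lemma: a set `A` with an `a`-colouring such that every vertex of the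
non-neighbourhood of `w` misses a colour. -/
theorem split_of_missing [Finite V] (G : SimpleGraph V) (A : Set V) (a b : ℕ) (ha : 1 ≤ a)
    (hb : 2 ≤ b) (φ : V → Fin a)
    (hφ : ∀ u ∈ A, ∀ v ∈ A, G.Adj u v → φ u ≠ φ v) (hA : ¬ (G.induce A).Colorable (a - 1))
    (w : V) (hw : w ∉ A)
    (h : ∀ u ∉ A, (u = w ∨ ¬ G.Adj w u) → ∃ c : Fin a, ∀ v ∈ A, φ v = c → ¬ G.Adj u v)
    (hG : ¬ G.Colorable (a + b - 2)) : Split G a b := by
  refine split_of G A Aᶜ a b ha (by omega) disjoint_compl_right hA ?_
  intro hc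
  apply hG
  have : b - 1 = (b - 2) + 1 := by omega
  rw [this] at hc
  have h2 := colorable_of_missing G A a (b - 2) φ hφ w hw h hc
  have : b - 2 + a = a + b - 2 := by omega
  rwa [this] at h2

/-- A clique with `a` vertices is not `(a-1)`-colourable. -/
theorem clique_not_colorable (G : SimpleGraph V) (K : Finset V) (a : ℕ) (ha : 1 ≤ a)
    (hK : G.IsNClique a K) : ¬ (G.induce (K : Set V)).Colorable (a - 1) := by
  classical
  rintro ⟨ψ⟩
  have hinj : Function.Injective ψ := by
    intro u v huv
    by_contra hne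
    have hadj : G.Adj u v := hK.isClique u.2 v.2 (fun h => hne (Subtype.ext h))
    exact ψ.valid (v := u) (w := v) (by simpa using hadj) huv
  have := Fintype.card_le_of_injective ψ hinj
  simp only [Fintype.card_fin] at this
  have h2 : Fintype.card (K : Set V) = a := by
    rw [← hK.card_eq]
    simp
  omega

/-- Splitting off a clique. -/
theorem split_of_clique [Finite V] (G : SimpleGraph V) (K : Finset V) (a b : ℕ) (ha : 1 ≤ a)
    (hb : 2 ≤ b) (hK : G.IsNClique a K) (w : V) (hw : w ∉ K)
    (h : ∀ u ∉ K, (u = w ∨ ¬ G.Adj w u) → ∃ v ∈ K, ¬ G.Adj u v)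
    (hG : ¬ G.Colorable (a + b - 2)) : Split G a b := by
  classical
  let e : K ≃ Fin a := K.equivFinOfCardEq hK.card_eq
  let φ : V → Fin a := fun v => if hv : v ∈ K then e ⟨v, hv⟩ else ⟨0, by omega⟩
  have hφ' : ∀ u v, u ∈ K → v ∈ K → φ u = φ v → u = v := by
    intro u v hu hv huv
    simp only [φ, hu, hv, dif_pos] at huv
    have := e.injective huv
    exact congrArg Subtype.val this
  refine split_of_missing G (K : Set V) a b ha hb φ ?_ (clique_not_colorable G K a ha hK) w
    (by simpa using hw) ?_ hG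
  · intro u hu v hv huv heq
    exact huv.ne (hφ' u v (by simpa using hu) (by simpa using hv) heq)
  · intro u hu huw
    obtain ⟨v, hv, hadj⟩ := h u (by simpa using hu) huw
    refine ⟨φ v, fun v' hv' heq => ?_⟩
    rw [hφ' v' v (by simpa using hv') hv heq]
    exact hadj

/-- The exchange argument. -/
theorem exists_good_clique (G : SimpleGraph V) (a : ℕ) (w : V)
    (hM : ∀ s : Finset V, G.IsNClique (a + 1) s → ∃ v ∈ s, v = w ∨ G.Adj w v)
    (K : Finset V) (hK : G.IsNClique a K) (hwK : w ∉ K) (hn : ∃ v ∈ K, ¬ G.Adj w v) :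
    ∃ K' : Finset V, G.IsNClique a K' ∧ w ∉ K' ∧
      ∀ u ∉ K', (u = w ∨ ¬ G.Adj w u) → ∃ v ∈ K', ¬ G.Adj u v := by
  classical
  induction' ht : (K.filter (G.Adj w)).card using Nat.strong_induction_on with t ih generalizing K
  by_cases hgood : ∀ u ∉ K, (u = w ∨ ¬ G.Adj w u) → ∃ v ∈ K, ¬ G.Adj u v
  · exact ⟨K, hK, hwK, hgood⟩
  push Not at hgood
  obtain ⟨u, huK, huw, hu⟩ := hgood
  have hne : u ≠ w := by
    rintro rfl
    obtain ⟨v, hv, hv2⟩ := hn
    exact hv2 (hu v hv)
  have hnadj : ¬ G.Adj w u := by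
    rcases huw with h | h
    · exact absurd h hne
    · exact h
  by_cases hy : ∃ y ∈ K, G.Adj w y
  · obtain ⟨y, hyK, hwy⟩ := hy
    have huy : u ∉ K.erase y := fun h => huK (Finset.mem_of_mem_erase h)
    refine ih ((insert u (K.erase y)).filter (G.Adj w)).card ?_ (insert u (K.erase y)) ?_ ?_ ?_ rfl
    · rw [← ht, Finset.filter_insert, if_neg hnadj]
      apply Finset.card_lt_card
      refine ⟨Finset.filter_subset_filter _ (Finset.erase_subset _ _), ?_⟩
      intro hsub
      have := hsub (Finset.mem_filter.2 ⟨hyK, hwy⟩)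
      simp at this
    · constructor
      · rw [Finset.coe_insert]
        apply IsClique.insert
        · exact hK.isClique.subset (by
            intro z hz
            exact Finset.mem_of_mem_erase (Finset.mem_coe.1 hz))
        · intro z hz _
          exact hu z (Finset.mem_of_mem_erase (Finset.mem_coe.1 hz))
      · rw [Finset.card_insert_of_notMem huy, Finset.card_erase_of_mem hyK, hK.card_eq]
        have : 0 < K.card := Finset.card_pos.2 ⟨y, hyK⟩
        rw [hK.card_eq] at this
        omega
    · simp only [Finset.mem_insert, Finset.mem_erase, not_or, not_and]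
      exact ⟨fun h => hne h.symm, fun _ => hwK⟩
    · exact ⟨u, Finset.mem_insert_self _ _, hnadj⟩
  · push Not at hy
    exfalso
    have hcl : G.IsNClique (a + 1) (insert u K) := by
      constructor
      · rw [Finset.coe_insert]
        apply IsClique.insert hK.isClique
        intro z hz _
        exact hu z (by simpa using hz)
      · rw [Finset.card_insert_of_notMem huK, hK.card_eq]
    obtain ⟨v, hv, hv2⟩ := hM _ hcl
    rcases Finset.mem_insert.1 hv with rfl | hvK
    · rcases hv2 with h | h
      · exact hne h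
      · exact hnadj h
    · rcases hv2 with rfl | h
      · exact hwK hvK
      · exact hy v hvK h

/-- **Local theorem.** If the non-neighbourhood of `w` contains no clique with `a + 1` vertices
and some clique with `a` vertices avoids `w` and is not contained in the neighbourhood of `w`,
then `G` is `(a, b)`-splittable, `b = χ - a + 1`. -/
theorem split_local [Finite V] (G : SimpleGraph V) (a b : ℕ) (ha : 1 ≤ a) (hb : 2 ≤ b) (w : V)
    (hM : ∀ s : Finset V, G.IsNClique (a + 1) s → ∃ v ∈ s, v = w ∨ G.Adj w v)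
    (K : Finset V) (hK : G.IsNClique a K) (hwK : w ∉ K) (hn : ∃ v ∈ K, ¬ G.Adj w v)
    (hG : ¬ G.Colorable (a + b - 2)) : Split G a b := by
  obtain ⟨K', h1, h2, h3⟩ := exists_good_clique G a w hM K hK hwK hn
  exact split_of_clique G K' a b ha hb h1 w h2 h3 hG

/-- The chromatic number of a clique. -/
theorem clique_chromatic (G : SimpleGraph V) (K : Finset V) (a : ℕ) (ha : 1 ≤ a)
    (hK : G.IsNClique a K) : (G.induce (K : Set V)).chromaticNumber = (a : ℕ∞) := by
  classical
  apply le_antisymm
  · rw [chromaticNumber_le_iff_colorable]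
    have h1 := (G.induce (K : Set V)).colorable_of_fintype
    have h2 : Fintype.card (K : Set V) = a := by
      rw [← hK.card_eq]
      simp
    rwa [h2] at h1
  · by_contra hlt
    rw [not_le] at hlt
    apply clique_not_colorable G K a ha hK
    rw [← chromaticNumber_le_iff_colorable]
    have : (a : ℕ∞) = ((a - 1 : ℕ) : ℕ∞) + 1 := by
      have : a = (a - 1) + 1 := by omega
      exact_mod_cast this
    rw [this] at hlt
    exact (ENat.lt_add_one_iff (ENat.natCast_ne_top _)).1 hlt

/-- The local theorem with a clique as one of the parts. -/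
theorem split_local_strong [Finite V] (G : SimpleGraph V) (a b : ℕ) (ha : 1 ≤ a) (hb : 2 ≤ b)
    (w : V) (hM : ∀ s : Finset V, G.IsNClique (a + 1) s → ∃ v ∈ s, v = w ∨ G.Adj w v)
    (K : Finset V) (hK : G.IsNClique a K) (hwK : w ∉ K) (hn : ∃ v ∈ K, ¬ G.Adj w v)
    (hG : ¬ G.Colorable (a + b - 2)) :
    ∃ (S : Finset V) (T : Set V), G.IsNClique a S ∧ Disjoint (S : Set V) T ∧
      (G.induce (S : Set V)).chromaticNumber = (a : ℕ∞) ∧
      (G.induce T).chromaticNumber = (b : ℕ∞) := by
  classical
  obtain ⟨K', h1, h2, h3⟩ := exists_good_clique G a w hM K hK hwK hn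
  have hnc : ¬ (G.induce ((K' : Set V)ᶜ)).Colorable (b - 1) := by
    intro hc
    apply hG
    let e : K' ≃ Fin a := K'.equivFinOfCardEq h1.card_eq
    let φ : V → Fin a := fun v => if hv : v ∈ K' then e ⟨v, hv⟩ else ⟨0, by omega⟩
    have hφ' : ∀ u v, u ∈ K' → v ∈ K' → φ u = φ v → u = v := by
      intro u v hu hv huv
      simp only [φ, hu, hv, dif_pos] at huv
      have := e.injective huv
      exact congrArg Subtype.val this
    have e1 : b - 1 = (b - 2) + 1 := by omega
    rw [e1] at hc
    have h4 := colorable_of_missing G (K' : Set V) a (b - 2) φ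
      (fun u hu v hv huv heq => huv.ne (hφ' u v (by simpa using hu) (by simpa using hv) heq))
      w (by simpa using h2) (by
        intro u hu huw
        obtain ⟨v, hv, hadj⟩ := h3 u (by simpa using hu) huw
        refine ⟨φ v, fun v' hv' heq => ?_⟩
        rw [hφ' v' v (by simpa using hv') hv heq]
        exact hadj) hc
    have e2 : b - 2 + a = a + b - 2 := by omega
    rwa [e2] at h4
  obtain ⟨T, hT, hT2⟩ := exists_exact G _ b (by omega) hnc
  exact ⟨K', T, h1, disjoint_compl_right.mono_right hT, clique_chromatic G K' a ha h1, hT2⟩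

/-- In a graph that is not complete some clique with `a` vertices is not complete to some
outside vertex. -/
theorem exists_pair [Finite V] (G : SimpleGraph V) (a : ℕ) (ha : 1 ≤ a) (K : Finset V)
    (hK : G.IsNClique a K) (hG : ∃ x y : V, x ≠ y ∧ ¬ G.Adj x y) :
    ∃ (K' : Finset V) (w : V), G.IsNClique a K' ∧ w ∉ K' ∧ ∃ v ∈ K', ¬ G.Adj w v := by
  classical
  by_contra hcon
  push Not at hcon
  obtain ⟨x, y, hxy, hadj⟩ := hG
  -- every vertex outside an `a`-clique is complete to it
  have h1 : ∀ (K' : Finset V), G.IsNClique a K' → ∀ w ∉ K', ∀ v ∈ K', G.Adj w v :=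
    fun K' hK' w hw v hv => hcon K' w hK' hw v hv
  by_cases hx : x ∈ K
  · by_cases hy : y ∈ K
    · exact hadj (hK.isClique hx hy hxy)
    · exact hadj (h1 K hK y hy x hx).symm
  · by_cases hy : y ∈ K
    · exact hadj (h1 K hK x hx y hy)
    · -- replace some `z ∈ K` by `x`
      have hpos : 0 < K.card := by rw [hK.card_eq]; omega
      obtain ⟨z, hz⟩ := Finset.card_pos.1 hpos
      have hxz : x ∉ K.erase z := fun h => hx (Finset.mem_of_mem_erase h)
      have hcl : G.IsNClique a (insert x (K.erase z)) := by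
        constructor
        · rw [Finset.coe_insert]
          apply IsClique.insert
          · exact hK.isClique.subset (by
              intro u hu
              exact Finset.mem_of_mem_erase (Finset.mem_coe.1 hu))
          · intro u hu _
            exact h1 K hK x hx u (Finset.mem_of_mem_erase (Finset.mem_coe.1 hu))
        · rw [Finset.card_insert_of_notMem hxz, Finset.card_erase_of_mem hz, hK.card_eq]
          omega
      have hy' : y ∉ insert x (K.erase z) := by
        simp only [Finset.mem_insert, Finset.mem_erase, not_or, not_and]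
        exact ⟨fun h => hxy h.symm, fun _ => hy⟩
      exact hadj (h1 _ hcl y hy' x (Finset.mem_insert_self _ _)).symm

/-- **Global theorem.** No induced `K₁ ∪ K_{a+1}`, and `a ≤ ω(G) < χ(G)`. -/
theorem split_global [Finite V] (G : SimpleGraph V) (a b : ℕ) (ha : 1 ≤ a) (hb : 2 ≤ b)
    (hG : ¬ G.Colorable (a + b - 2)) (hfree : G.CliqueFree (a + b - 1))
    (hcl : ¬ G.CliqueFree a)
    (hM : ∀ (w : V) (s : Finset V), G.IsNClique (a + 1) s → ∃ v ∈ s, v = w ∨ G.Adj w v) :
    Split G a b := by
  classical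
  have := Fintype.ofFinite V
  obtain ⟨K, hK⟩ : ∃ K : Finset V, G.IsNClique a K := by
    unfold CliqueFree at hcl
    push Not at hcl
    exact hcl
  have hne : ∃ x y : V, x ≠ y ∧ ¬ G.Adj x y := by
    by_contra hcon
    push Not at hcon
    -- `G` is complete
    have hcard : a + b - 1 ≤ (Finset.univ : Finset V).card := by
      by_contra hlt
      apply hG
      have h1 : G.Colorable (Fintype.card V) := G.colorable_of_fintype
      refine h1.mono ?_
      rw [Finset.card_univ] at hlt
      omega
    obtain ⟨s, -, hs⟩ := Finset.exists_subset_card_eq hcard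
    exact hfree s ⟨fun x _ y _ hxy => hcon x y hxy, hs⟩
  obtain ⟨K', w, h1, h2, h3⟩ := exists_pair G a ha K hK hne
  exact split_local G a b ha hb w (hM w) K' h1 h2 h3 hG

end Pool.Agent.H50.ELT
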