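import Mathlib

/-!
# Ownership of the edges of a graph

Every finite graph on a set `J` of vertices has an assignment of the edges to their ends ((`i` owns the
edge `ij`) with total cost at most `2|J|`, where a vertex costs `1` if it owns nothing, `2` if it does
not own all its edges and `3` if it has degree one and owns its edge.
-/

namespace Pool.Agent.H50.ELT

open SimpleGraph Finset

variable {I : Type*}

/-- The local condition at a vertex. -/
def LocalCost (R : SimpleGraph I) (J : Finset I) (own : I → I → Prop) (c : I → ℕ) (i : I) : Prop :=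
  (1 ≤ c i ∧ ∀ j ∈ J, R.Adj i j → ¬ own i j) ∨
    (2 ≤ c i ∧ ∃ j ∈ J, R.Adj i j ∧ ¬ own i j) ∨
    (3 ≤ c i ∧ ∃ j ∈ J, ∀ l ∈ J, R.Adj i l → l = j)

/-- Minimum degree two: Hall's theorem. -/
theorem own_hall [DecidableEq I] (R : SimpleGraph I) (J : Finset I)
    (hdeg : ∀ i ∈ J, ∃ j ∈ J, ∃ l ∈ J, j ≠ l ∧ R.Adj i j ∧ R.Adj i l) :
    ∃ own : I → I → Prop, (∀ i ∈ J, ∀ j ∈ J, R.Adj i j → own i j ∨ own j i) ∧
      ∀ i ∈ J, ∃ j ∈ J, R.Adj i j ∧ ¬ own i j := by
  classical
  let t : J → Finset (Sym2 I) := fun i => (J.filter (R.Adj i)).image (fun j => s((i : I), j))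
  have hmem : ∀ (i : J) (e : Sym2 I), e ∈ t i ↔ ∃ j ∈ J, R.Adj i j ∧ s((i : I), j) = e := by
    intro i e
    simp [t, and_assoc]
  have hall : ∀ s : Finset J, s.card ≤ (s.biUnion t).card := by
    intro s
    have h1 : s.card * 2 ≤ (s.biUnion t).card * 2 := by
      refine Finset.card_mul_le_card_mul (fun (i : J) (e : Sym2 I) => e ∈ t i) ?_ ?_
      · intro i hi
        obtain ⟨j, hj, l, hl, hjl, h1, h2⟩ := hdeg i i.2
        have hsub : ({s((i : I), j), s((i : I), l)} : Finset (Sym2 I)) ⊆
            (s.biUnion t).bipartiteAbove (fun (i : J) (e : Sym2 I) => e ∈ t i) i := by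
          intro e he
          rw [Finset.mem_bipartiteAbove]
          have he' : e ∈ t i := by
            rw [hmem]
            rcases Finset.mem_insert.1 he with rfl | he
            · exact ⟨j, hj, h1, rfl⟩
            · rw [Finset.mem_singleton] at he
              exact ⟨l, hl, h2, he.symm⟩
          exact ⟨Finset.mem_biUnion.2 ⟨i, hi, he'⟩, he'⟩
        refine le_trans (le_of_eq ?_) (Finset.card_le_card hsub)
        rw [Finset.card_pair]
        intro heq
        rw [Sym2.eq_iff] at heq
        rcases heq with ⟨-, h⟩ | ⟨h, h'⟩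
        · exact hjl h
        · rw [← h] at h2
          exact h2.ne rfl
      · intro e _
        induction e with
        | h x y =>
          have hsub : ((s.bipartiteBelow (fun (i : J) (e : Sym2 I) => e ∈ t i) s(x, y)).image
              (fun i : J => (i : I))) ⊆ ({x, y} : Finset I) := by
            intro z hz
            rw [Finset.mem_image] at hz
            obtain ⟨i, hi, rfl⟩ := hz
            rw [Finset.mem_bipartiteBelow, hmem] at hi
            obtain ⟨-, j, -, -, heq⟩ := hi
            rw [Sym2.eq_iff] at heq
            rcases heq with ⟨h, -⟩ | ⟨h, -⟩ <;> simp [h]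
          have h2 := Finset.card_le_card hsub
          rw [Finset.card_image_of_injective _ Subtype.val_injective] at h2
          exact h2.trans Finset.card_le_two
    omega
  obtain ⟨f, hf1, hf2⟩ := (Finset.all_card_le_biUnion_card_iff_exists_injective t).1 hall
  refine ⟨fun i j => ∀ hi : i ∈ J, f ⟨i, hi⟩ ≠ s(i, j), ?_, ?_⟩
  · intro i hi j hj hij
    by_contra hcon
    push Not at hcon
    obtain ⟨⟨_, h1⟩, ⟨_, h2⟩⟩ := hcon
    have : (⟨i, hi⟩ : J) = ⟨j, hj⟩ := hf1 (h1.trans (Sym2.eq_swap.trans h2.symm))
    exact hij.ne (congrArg Subtype.val this)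
  · intro i hi
    obtain ⟨j, hj, hij, heq⟩ := (hmem ⟨i, hi⟩ _).1 (hf2 ⟨i, hi⟩)
    exact ⟨j, hj, hij, fun h => h hi heq.symm⟩

/-- The ownership lemma. -/
theorem exists_own [DecidableEq I] (R : SimpleGraph I) (J : Finset I) :
    ∃ (own : I → I → Prop) (c : I → ℕ),
      (∀ i ∈ J, ∀ j ∈ J, R.Adj i j → own i j ∨ own j i) ∧
      (∑ i ∈ J, c i ≤ 2 * J.card) ∧ ∀ i ∈ J, LocalCost R J own c i := by
  classical
  induction' hn : J.card using Nat.strong_induction_on with n ih generalizing J
  by_cases hA : ∃ i ∈ J, ∀ j ∈ J, ¬ R.Adj i j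
  · -- an isolated vertex
    obtain ⟨i, hi, hiso⟩ := hA
    have hcard : (J.erase i).card + 1 = J.card := Finset.card_erase_add_one hi
    obtain ⟨own, c, h1, h2, h3⟩ := ih (J.erase i).card (by omega) (J.erase i) rfl
    refine ⟨own, Function.update c i 1, ?_, ?_, ?_⟩
    · intro x hx y hy hxy
      have hxi : x ≠ i := fun h => hiso y hy (h ▸ hxy)
      have hyi : y ≠ i := fun h => hiso x hx (h ▸ hxy.symm)
      exact h1 x (Finset.mem_erase.2 ⟨hxi, hx⟩) y (Finset.mem_erase.2 ⟨hyi, hy⟩) hxy
    · rw [← Finset.add_sum_erase J _ hi, Function.update_self]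
      have : ∑ x ∈ J.erase i, Function.update c i 1 x = ∑ x ∈ J.erase i, c x := by
        refine Finset.sum_congr rfl fun x hx => ?_
        rw [Function.update_of_ne (Finset.ne_of_mem_erase hx)]
      rw [this]
      omega
    · intro x hx
      by_cases hxi : x = i
      · subst hxi
        left
        refine ⟨by simp, fun j hj hadj => absurd hadj (hiso j hj)⟩
      · have hx' : x ∈ J.erase i := Finset.mem_erase.2 ⟨hxi, hx⟩
        have hni : ¬ R.Adj x i := fun h => hiso x hx h.symm
        unfold LocalCost
        rw [Function.update_of_ne hxi]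
        rcases h3 x hx' with ⟨e1, e2⟩ | ⟨e1, j, hj, e2⟩ | ⟨e1, j, hj, e2⟩
        · left
          refine ⟨e1, fun y hy hxy => ?_⟩
          have hyi : y ≠ i := by rintro rfl; exact hni hxy
          exact e2 y (Finset.mem_erase.2 ⟨hyi, hy⟩) hxy
        · right; left
          exact ⟨e1, j, Finset.mem_of_mem_erase hj, e2⟩
        · right; right
          refine ⟨e1, j, Finset.mem_of_mem_erase hj, fun y hy hxy => ?_⟩
          have hyi : y ≠ i := by rintro rfl; exact hni hxy
          exact e2 y (Finset.mem_erase.2 ⟨hyi, hy⟩) hxy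
  by_cases hB : ∃ i ∈ J, ∃ j ∈ J, R.Adj i j ∧ ∀ l ∈ J, R.Adj i l → l = j
  · -- a leaf `i` with neighbour `j`
    obtain ⟨i, hi, j, hj, hij, huniq⟩ := hB
    have hji : j ≠ i := hij.ne'
    have hnadj : ∀ x ∈ J, x ≠ j → ¬ R.Adj x i := fun x hx hxj h => hxj (huniq x hx h.symm)
    by_cases hB1 : ∀ l ∈ J, R.Adj j l → l = i
    · -- a single edge
      have hj' : j ∈ J.erase i := Finset.mem_erase.2 ⟨hji, hj⟩
      have hcard1 : (J.erase i).card + 1 = J.card := Finset.card_erase_add_one hi
      have hcard2 : ((J.erase i).erase j).card + 1 = (J.erase i).card :=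
        Finset.card_erase_add_one hj'
      obtain ⟨own, c, h1, h2, h3⟩ :=
        ih ((J.erase i).erase j).card (by omega) ((J.erase i).erase j) rfl
      refine ⟨fun x y => (x = j ∧ y = i) ∨ (x ≠ i ∧ y ≠ i ∧ own x y),
        Function.update (Function.update c i 1) j 3, ?_, ?_, ?_⟩
      · intro x hx y hy hxy
        by_cases hxi : x = i
        · subst hxi
          exact Or.inr (Or.inl ⟨huniq y hy hxy, rfl⟩)
        by_cases hyi : y = i
        · subst hyi
          exact Or.inl (Or.inl ⟨huniq x hx hxy.symm, rfl⟩)
        have hxj : x ≠ j := by rintro rfl; exact hyi (hB1 y hy hxy)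
        have hyj : y ≠ j := by rintro rfl; exact hxi (hB1 x hx hxy.symm)
        rcases h1 x (by simp [hxi, hxj, hx]) y (by simp [hyi, hyj, hy]) hxy with h | h
        · exact Or.inl (Or.inr ⟨hxi, hyi, h⟩)
        · exact Or.inr (Or.inr ⟨hyi, hxi, h⟩)
      · rw [← Finset.add_sum_erase J _ hi, ← Finset.add_sum_erase (J.erase i) _ hj',
          Function.update_self, Function.update_of_ne hji.symm, Function.update_self]
        have : ∑ x ∈ (J.erase i).erase j, Function.update (Function.update c i 1) j 3 x =
            ∑ x ∈ (J.erase i).erase j, c x := by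
          refine Finset.sum_congr rfl fun x hx => ?_
          rw [Function.update_of_ne (Finset.ne_of_mem_erase hx),
            Function.update_of_ne (Finset.ne_of_mem_erase (Finset.mem_of_mem_erase hx))]
        rw [this]
        omega
      · intro x hx
        unfold LocalCost
        by_cases hxi : x = i
        · subst hxi
          left
          rw [Function.update_of_ne hji.symm, Function.update_self]
          refine ⟨le_rfl, fun y hy hxy => ?_⟩
          rintro (⟨h, -⟩ | ⟨h, -⟩)
          · exact hji h.symm
          · exact h rfl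
        by_cases hxj : x = j
        · subst hxj
          right; right
          rw [Function.update_self]
          exact ⟨le_rfl, i, hi, hB1⟩
        have hx' : x ∈ (J.erase i).erase j := by simp [hxi, hxj, hx]
        have hni : ¬ R.Adj x i := hnadj x hx hxj
        have hnj : ¬ R.Adj x j := fun h => hxi (hB1 x hx h.symm)
        rw [Function.update_of_ne hxj, Function.update_of_ne hxi]
        have hne : ∀ y, R.Adj x y → y ≠ i ∧ y ≠ j := fun y hxy =>
          ⟨by rintro rfl; exact hni hxy, by rintro rfl; exact hnj hxy⟩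
        rcases h3 x hx' with ⟨e1, e2⟩ | ⟨e1, l, hl, e2, e3⟩ | ⟨e1, l, hl, e2⟩
        · left
          refine ⟨e1, fun y hy hxy => ?_⟩
          rintro (⟨h, -⟩ | ⟨-, -, h⟩)
          · exact hxj h
          · exact e2 y (by simp [(hne y hxy).1, (hne y hxy).2, hy]) hxy h
        · right; left
          refine ⟨e1, l, by simp at hl; exact hl.2.2, e2, ?_⟩
          rintro (⟨h, -⟩ | ⟨-, -, h⟩)
          · exact hxj h
          · exact e3 h
        · right; right
          refine ⟨e1, l, by simp at hl; exact hl.2.2, fun y hy hxy => ?_⟩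
          exact e2 y (by simp [(hne y hxy).1, (hne y hxy).2, hy]) hxy
    · -- `j` has another neighbour `l0`
      push Not at hB1
      obtain ⟨l0, hl0, hjl0, hl0i⟩ := hB1
      have hj' : j ∈ J.erase i := Finset.mem_erase.2 ⟨hji, hj⟩
      have hl0' : l0 ∈ J.erase i := Finset.mem_erase.2 ⟨hl0i, hl0⟩
      have hcard1 : (J.erase i).card + 1 = J.card := Finset.card_erase_add_one hi
      obtain ⟨own, c, h1, h2, h3⟩ := ih (J.erase i).card (by omega) (J.erase i) rfl
      -- the vertices other than `i` and `j`
      have hother : ∀ (own' : I → I → Prop) (c' : I → ℕ),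
          (∀ x y, x ≠ i → x ≠ j → y ≠ i → (own' x y ↔ own x y)) →
          (∀ x, x ≠ i → x ≠ j → c' x = c x) →
          ∀ x ∈ J, x ≠ i → x ≠ j → LocalCost R J own' c' x := by
        intro own' c' ho hc x hx hxi hxj
        have hx' : x ∈ J.erase i := Finset.mem_erase.2 ⟨hxi, hx⟩
        have hne : ∀ y, R.Adj x y → y ≠ i := fun y hxy => by
          rintro rfl; exact hnadj x hx hxj hxy
        unfold LocalCost
        rw [hc x hxi hxj]
        rcases h3 x hx' with ⟨e1, e2⟩ | ⟨e1, l, hl, e2, e3⟩ | ⟨e1, l, hl, e2⟩
        · left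
          refine ⟨e1, fun y hy hxy => ?_⟩
          rw [ho x y hxi hxj (hne y hxy)]
          exact e2 y (Finset.mem_erase.2 ⟨hne y hxy, hy⟩) hxy
        · right; left
          refine ⟨e1, l, Finset.mem_of_mem_erase hl, e2, ?_⟩
          rw [ho x l hxi hxj (hne l e2)]
          exact e3
        · right; right
          refine ⟨e1, l, Finset.mem_of_mem_erase hl, fun y hy hxy => ?_⟩
          exact e2 y (Finset.mem_erase.2 ⟨hne y hxy, hy⟩) hxy
      -- ownership of the pairs inside `J.erase i`
      have hpairs : ∀ (own' : I → I → Prop),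
          (∀ x y, x ≠ i → y ≠ i → (own' x y ↔ own x y)) → (own' i j ∨ own' j i) →
          ∀ x ∈ J, ∀ y ∈ J, R.Adj x y → own' x y ∨ own' y x := by
        intro own' ho hoi x hx y hy hxy
        by_cases hxi : x = i
        · subst hxi
          rw [huniq y hy hxy]
          exact hoi
        by_cases hyi : y = i
        · subst hyi
          rw [huniq x hx hxy.symm]
          exact hoi.symm
        rw [ho x y hxi hyi, ho y x hyi hxi]
        exact h1 x (Finset.mem_erase.2 ⟨hxi, hx⟩) y (Finset.mem_erase.2 ⟨hyi, hy⟩) hxy
      -- sums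
      have hsum : ∀ (c' : I → ℕ) (A B : ℕ), c' i = A → c' j + B = c j + 2 → 
          (∀ x, x ≠ i → x ≠ j → c' x = c x) → A ≤ B → ∑ x ∈ J, c' x ≤ 2 * n := by
        intro c' A B hA' hB' hc hAB
        rw [← Finset.add_sum_erase J _ hi, ← Finset.add_sum_erase (J.erase i) _ hj', hA']
        rw [← Finset.add_sum_erase (J.erase i) _ hj'] at h2
        have : ∑ x ∈ (J.erase i).erase j, c' x = ∑ x ∈ (J.erase i).erase j, c x := by
          refine Finset.sum_congr rfl fun x hx => ?_
          exact hc x (Finset.ne_of_mem_erase (Finset.mem_of_mem_erase hx))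
            (Finset.ne_of_mem_erase hx)
        rw [this]
        omega
      rcases h3 j hj' with ⟨e1, e2⟩ | ⟨e1, l, hl, e2, e3⟩ | ⟨e1, l, hl, e2⟩
      · -- `j` owned nothing
        refine ⟨fun x y => (x = j ∧ y = i) ∨ (x ≠ i ∧ y ≠ i ∧ own x y),
          fun x => if x = i then 1 else if x = j then c j + 1 else c x, ?_, ?_, ?_⟩
        · apply hpairs
          · intro x y hxi hyi
            simp [hxi, hyi]
          · right; left; exact ⟨rfl, rfl⟩
        · apply hsum _ 1 1
          · simp
          · simp [hji]
          · intro x hxi hxj; simp [hxi, hxj]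
          · exact le_rfl
        · intro x hx
          by_cases hxi : x = i
          · subst hxi
            left
            refine ⟨by simp, fun y hy hxy => ?_⟩
            rintro (⟨h, -⟩ | ⟨h, -⟩)
            · exact hji h.symm
            · exact h rfl
          by_cases hxj : x = j
          · subst hxj
            right; left
            refine ⟨by simp [hji]; omega, l0, hl0, hjl0, ?_⟩
            rintro (⟨-, h⟩ | ⟨-, -, h⟩)
            · exact hl0i h
            · exact e2 l0 hl0' hjl0 h
          · refine hother _ _ ?_ ?_ x hx hxi hxj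
            · intro x y hxi hxj hyi
              simp [hxi, hxj, hyi]
            · intro x hxi hxj; simp [hxi, hxj]
      · -- `j` has an unowned edge
        refine ⟨fun x y => (x = j ∧ y = i) ∨ (x ≠ i ∧ y ≠ i ∧ own x y),
          fun x => if x = i then 1 else c x, ?_, ?_, ?_⟩
        · apply hpairs
          · intro x y hxi hyi
            simp [hxi, hyi]
          · right; left; exact ⟨rfl, rfl⟩
        · apply hsum _ 1 2
          · simp
          · simp [hji]
          · intro x hxi hxj; simp [hxi]
          · norm_num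
        · intro x hx
          by_cases hxi : x = i
          · subst hxi
            left
            refine ⟨by simp, fun y hy hxy => ?_⟩
            rintro (⟨h, -⟩ | ⟨h, -⟩)
            · exact hji h.symm
            · exact h rfl
          by_cases hxj : x = j
          · subst hxj
            right; left
            refine ⟨by simp [hji]; omega, l, Finset.mem_of_mem_erase hl, e2, ?_⟩
            rintro (⟨-, h⟩ | ⟨-, -, h⟩)
            · exact (Finset.ne_of_mem_erase hl) h
            · exact e3 h
          · refine hother _ _ ?_ ?_ x hx hxi hxj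
            · intro x y hxi hxj hyi
              simp [hxi, hxj, hyi]
            · intro x hxi hxj; simp [hxi]
      · -- `j` is a leaf of the rest and owns its edge
        refine ⟨fun x y => (x = i ∧ y = j) ∨ (x ≠ i ∧ y ≠ i ∧ own x y),
          fun x => if x = i then 3 else if x = j then c j - 1 else c x, ?_, ?_, ?_⟩
        · apply hpairs
          · intro x y hxi hyi
            simp [hxi, hyi]
          · left; left; exact ⟨rfl, rfl⟩
        · apply hsum _ 3 3
          · simp
          · simp [hji]; omega
          · intro x hxi hxj; simp [hxi, hxj]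
          · exact le_rfl
        · intro x hx
          by_cases hxi : x = i
          · subst hxi
            right; right
            exact ⟨by simp, j, hj, huniq⟩
          by_cases hxj : x = j
          · subst hxj
            right; left
            refine ⟨by simp [hji]; omega, i, hi, hij.symm, ?_⟩
            rintro (⟨h, -⟩ | ⟨-, h, -⟩)
            · exact hji h
            · exact h rfl
          · refine hother _ _ ?_ ?_ x hx hxi hxj
            · intro x y hxi hxj hyi
              simp [hxi, hyi]
            · intro x hxi hxj; simp [hxi, hxj]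
  · -- minimum degree two
    push Not at hA hB
    have hdeg : ∀ i ∈ J, ∃ j ∈ J, ∃ l ∈ J, j ≠ l ∧ R.Adj i j ∧ R.Adj i l := by
      intro i hi
      obtain ⟨j, hj, hij⟩ := hA i hi
      obtain ⟨l, hl, hil, hlj⟩ := hB i hi j hj hij
      exact ⟨j, hj, l, hl, hlj.symm, hij, hil⟩
    obtain ⟨own, h1, h2⟩ := own_hall R J hdeg
    refine ⟨own, fun _ => 2, h1, ?_, ?_⟩
    · rw [Finset.sum_const, hn]
      simp [mul_comm]
    · intro i hi
      right; left
      exact ⟨le_rfl, h2 i hi⟩

end Pool.Agent.H50.ELT
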