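import Pool.Agent.H50.ELT.Quasi
import Pool.Agent.H50.ELT.Own

/-!
# Complements of claw-free graphs without components of independence number two: `χ ≤ 2ω`
-/

namespace Pool.Agent.H50.ELT

open SimpleGraph

variable {V : Type*}

/-- The component of `v` in the complement of `G` has independence number at least three. -/
def Tr (G : SimpleGraph V) (v : V) : Prop :=
  ∃ p q r : V, G.Adj p q ∧ G.Adj q r ∧ G.Adj p r ∧
    Gᶜ.Reachable v p ∧ Gᶜ.Reachable v q ∧ Gᶜ.Reachable v r

theorem Tr.of_reachable {G : SimpleGraph V} {v u : V} (h : Tr G v) (hr : Gᶜ.Reachable u v) :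
    Tr G u := by
  obtain ⟨p, q, r, h1, h2, h3, h4, h5, h6⟩ := h
  exact ⟨p, q, r, h1, h2, h3, hr.trans h4, hr.trans h5, hr.trans h6⟩

/-- Every vertex whose component in the complement of `G` has independence number at most two has
a non-neighbourhood in `G` which induces a bipartite graph. -/
def CompCond (G : SimpleGraph V) : Prop :=
  ∀ v : V, Tr G v ∨ (G.induce {u | u ≠ v ∧ ¬ G.Adj v u}).Colorable 2

/-- `u` is `v` or not adjacent to `v`. -/
def Nn (G : SimpleGraph V) (v u : V) : Prop := u = v ∨ ¬ G.Adj v u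

theorem Nn_self (G : SimpleGraph V) (v : V) : Nn G v v := Or.inl rfl

theorem not_Nn {G : SimpleGraph V} {v u : V} (h : ¬ Nn G v u) : u ≠ v ∧ G.Adj v u := by
  unfold Nn at h
  push Not at h
  exact h

theorem not_Nn_of_adj {G : SimpleGraph V} {v u : V} (h : G.Adj v u) : ¬ Nn G v u := by
  rintro (rfl | h')
  · exact h.ne rfl
  · exact h' h

theorem not_adj_of_Nn {G : SimpleGraph V} {v u : V} (h : Nn G v u) : ¬ G.Adj v u := by
  intro h'
  exact not_Nn_of_adj h' h

section

variable {G : SimpleGraph V} {m : ℕ} {K : Finset V}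

theorem Nn_ne (hK : G.IsNClique m K) {v l u : V} (hv : v ∈ K) (hl : l ∈ K) (hvl : v ≠ l)
    (h2 : Nn G l u) : u ≠ v := by
  rintro rfl
  exact not_Nn_of_adj (hK.isClique (by simpa using hl) (by simpa using hv) hvl.symm) h2

theorem no_three (hcc : CoClawFree G) (hK : G.IsNClique m K) {v1 v2 v3 u : V} (h1 : v1 ∈ K)
    (h2 : v2 ∈ K) (h3 : v3 ∈ K) (h12 : v1 ≠ v2) (h13 : v1 ≠ v3) (h23 : v2 ≠ v3)
    (n1 : Nn G v1 u) (n2 : Nn G v2 u) (n3 : Nn G v3 u) : False := by
  have hadj : ∀ x y, x ∈ K → y ∈ K → x ≠ y → G.Adj x y := fun x y hx hy hxy =>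
    hK.isClique (by simpa using hx) (by simpa using hy) hxy
  have u1 : u ≠ v1 := Nn_ne hK h1 h2 h12 n2
  have u2 : u ≠ v2 := Nn_ne hK h2 h1 h12.symm n1
  have u3 : u ≠ v3 := Nn_ne hK h3 h1 h13.symm n1
  rcases hcc u v1 v2 v3 (hadj _ _ h1 h2 h12) (hadj _ _ h2 h3 h23) (hadj _ _ h1 h3 h13) u1 u2 u3
    with h | h | h
  · exact not_adj_of_Nn n1 h.symm
  · exact not_adj_of_Nn n2 h.symm
  · exact not_adj_of_Nn n3 h.symm

/-- The private sets are independent. -/
theorem private_indep (hK : G.IsNClique m K) (hmax : G.CliqueFree (m + 1)) {v x y : V}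
    (hv : v ∈ K) (hx : Nn G v x) (hy : Nn G v y) (hx' : ∀ l ∈ K, l ≠ v → ¬ Nn G l x)
    (hy' : ∀ l ∈ K, l ≠ v → ¬ Nn G l y) : ¬ G.Adj x y := by
  classical
  intro hxy
  have hxK : x ∉ K.erase v := fun h =>
    hx' x (Finset.mem_of_mem_erase h) (Finset.ne_of_mem_erase h) (Nn_self G x)
  have hyK : y ∉ K.erase v := fun h =>
    hy' y (Finset.mem_of_mem_erase h) (Finset.ne_of_mem_erase h) (Nn_self G y)
  refine hmax (insert x (insert y (K.erase v))) ⟨?_, ?_⟩
  · rw [Finset.coe_insert]
    apply IsClique.insert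
    · rw [Finset.coe_insert]
      apply IsClique.insert
      · exact hK.isClique.subset (by
          intro z hz
          exact Finset.mem_of_mem_erase (Finset.mem_coe.1 hz))
      · intro z hz _
        rw [Finset.mem_coe] at hz
        exact (not_Nn (hy' z (Finset.mem_of_mem_erase hz) (Finset.ne_of_mem_erase hz))).2.symm
    · intro z hz _
      rw [Finset.mem_coe, Finset.mem_insert] at hz
      rcases hz with rfl | hz
      · exact hxy
      · exact (not_Nn (hx' z (Finset.mem_of_mem_erase hz) (Finset.ne_of_mem_erase hz))).2.symm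
  · rw [Finset.card_insert_of_notMem, Finset.card_insert_of_notMem hyK,
      Finset.card_erase_of_mem hv, hK.card_eq]
    · have : 0 < K.card := Finset.card_pos.2 ⟨v, hv⟩
      rw [hK.card_eq] at this
      omega
    · rw [Finset.mem_insert]
      rintro (h | h)
      · exact hxy.ne h
      · exact hxK h

/-- Two colours for `N_v \ Q_{vl}` when `Q_{vl}` is not empty. -/
theorem two_col (hcc : CoClawFree G) (hK : G.IsNClique m K) {v l z : V} (hv : v ∈ K)
    (hl : l ∈ K) (hvl : v ≠ l) (z1 : Nn G v z) (z2 : Nn G l z) {x y : V} (x1 : Nn G v x)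
    (x2 : ¬ Nn G l x) (y1 : Nn G v y) (y2 : ¬ Nn G l y) (hxy : G.Adj x y) :
    ¬ (G.Adj x z ↔ G.Adj y z) := by
  intro hiff
  have zv : z ≠ v := Nn_ne hK hv hl hvl z2
  have zl : z ≠ l := Nn_ne hK hl hv hvl.symm z1
  by_cases hxz : G.Adj x z
  · have hyz := hiff.1 hxz
    have xv : v ≠ x := by
      rintro rfl
      exact not_adj_of_Nn z1 hxz
    have yv : v ≠ y := by
      rintro rfl
      exact not_adj_of_Nn z1 hyz
    rcases hcc v x y z hxy hyz hxz xv yv zv.symm with h | h | h
    · exact not_adj_of_Nn x1 h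
    · exact not_adj_of_Nn y1 h
    · exact not_adj_of_Nn z1 h
  · have hyz : ¬ G.Adj y z := fun h => hxz (hiff.2 h)
    have hlx := (not_Nn x2).2
    have hly := (not_Nn y2).2
    have zx : z ≠ x := by
      rintro rfl
      exact x2 z2
    have zy : z ≠ y := by
      rintro rfl
      exact y2 z2
    rcases hcc z l x y hlx hxy hly zl zx zy with h | h | h
    · exact not_adj_of_Nn z2 h.symm
    · exact hxz h.symm
    · exact hyz h.symm

/-- There is an edge of the complement leaving `N_v ∪ N_{v'}`. -/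
theorem exists_exit (hK : G.IsNClique m K) (hmax : G.CliqueFree (m + 1))
    {v v' : V} (h2 : Tr G v) (hv : v ∈ K) (hv' : v' ∈ K) (hvv : v ≠ v') : ∃ z y : V, (Nn G v z ∨ Nn G v' z) ∧ ¬ Nn G v y ∧ ¬ Nn G v' y ∧
      z ≠ y ∧ ¬ G.Adj z y := by
  classical
  by_contra hcon
  push Not at hcon
  have hclosed : ∀ z y, (Nn G v z ∨ Nn G v' z) → Gᶜ.Adj z y → (Nn G v y ∨ Nn G v' y) := by
    intro z y hz hadj
    by_contra hy
    rw [not_or] at hy
    rw [compl_adj] at hadj
    exact hadj.2 (hcon z y hz hy.1 hy.2 hadj.1)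
  have hreach : ∀ u, Gᶜ.Reachable v u → (Nn G v u ∨ Nn G v' u) := by
    rintro u ⟨p⟩
    have : ∀ (s t : V) (p : Gᶜ.Walk s t), (Nn G v s ∨ Nn G v' s) → (Nn G v t ∨ Nn G v' t) := by
      intro s t p
      induction p with
      | nil => exact fun h => h
      | cons hadj _ ih => exact fun h => ih (hclosed _ _ h hadj)
    exact this v u p (Or.inl (Nn_self G v))
  obtain ⟨p, q, r, hpq, hqr, hpr, rp, rq, rr⟩ := h2
  have dp := hreach p rp
  have dq := hreach q rq
  have dr := hreach r rr
  -- the other vertices of the clique are outside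
  set K0 := (K.erase v).erase v' with hK0
  have hmem : ∀ l ∈ K0, l ∈ K ∧ l ≠ v ∧ l ≠ v' := by
    intro l hl
    simp only [hK0, Finset.mem_erase] at hl
    exact ⟨hl.2.2, hl.2.1, hl.1⟩
  have hnD : ∀ l ∈ K0, ¬ Nn G v l ∧ ¬ Nn G v' l := by
    intro l hl
    obtain ⟨e1, e2, e3⟩ := hmem l hl
    exact ⟨not_Nn_of_adj (hK.isClique (by simpa using hv) (by simpa using e1) e2.symm),
      not_Nn_of_adj (hK.isClique (by simpa using hv') (by simpa using e1) e3.symm)⟩
  have hout : ∀ s, (Nn G v s ∨ Nn G v' s) → ∀ l ∈ K0, G.Adj s l := by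
    intro s hs l hl
    have := hnD l hl
    have hne : s ≠ l := by
      rintro rfl
      rcases hs with h | h
      · exact this.1 h
      · exact this.2 h
    exact hcon s l hs this.1 this.2 hne
  have hnot : ∀ s, (Nn G v s ∨ Nn G v' s) → s ∉ K0 := fun s hs h => (hout s hs s h).ne rfl
  have hcard : K0.card + 2 = m := by
    have e1 : (K.erase v).card + 1 = K.card := Finset.card_erase_add_one hv
    have e2 : K0.card + 1 = (K.erase v).card :=
      Finset.card_erase_add_one (Finset.mem_erase.2 ⟨hvv.symm, hv'⟩)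
    rw [hK.card_eq] at e1
    omega
  refine hmax (insert p (insert q (insert r K0))) ⟨?_, ?_⟩
  · rw [Finset.coe_insert]
    apply IsClique.insert
    · rw [Finset.coe_insert]
      apply IsClique.insert
      · rw [Finset.coe_insert]
        apply IsClique.insert
        · exact hK.isClique.subset (by
            intro z hz
            exact (hmem z (Finset.mem_coe.1 hz)).1)
        · intro z hz _
          exact hout r dr z (Finset.mem_coe.1 hz)
      · intro z hz _
        rw [Finset.mem_coe, Finset.mem_insert] at hz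
        rcases hz with rfl | hz
        · exact hqr
        · exact hout q dq z hz
    · intro z hz _
      rw [Finset.mem_coe, Finset.mem_insert, Finset.mem_insert] at hz
      rcases hz with rfl | rfl | hz
      · exact hpq
      · exact hpr
      · exact hout p dp z hz
  · rw [Finset.card_insert_of_notMem, Finset.card_insert_of_notMem,
      Finset.card_insert_of_notMem (hnot r dr)]
    · omega
    · rw [Finset.mem_insert]
      rintro (h | h)
      · exact hqr.ne h
      · exact hnot q dq h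
    · rw [Finset.mem_insert, Finset.mem_insert]
      rintro (h | h | h)
      · exact hpq.ne h
      · exact hpr.ne h
      · exact hnot p dp h

/-- Two colours for `Q_{vv'}`, one half. -/
theorem two_col_Q_aux (hcc : CoClawFree G) (hK : G.IsNClique m K) {v v' : V} (hv : v ∈ K)
    (hv' : v' ∈ K) (hvv : v ≠ v') {z y : V} (z1 : Nn G v z) (y1 : ¬ Nn G v y)
    (y2 : ¬ Nn G v' y) (hzy : z ≠ y) (hzy' : ¬ G.Adj z y) {x x' : V} (x1 : Nn G v x)
    (x2 : Nn G v' x) (x1' : Nn G v x') (x2' : Nn G v' x') (hxx : G.Adj x x') :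
    ¬ (G.Adj x z ↔ G.Adj x' z) := by
  intro hiff
  have hadj : G.Adj v v' := hK.isClique (by simpa using hv) (by simpa using hv') hvv
  obtain ⟨yv, hvy⟩ := not_Nn y1
  obtain ⟨yv', hvy'⟩ := not_Nn y2
  have zv : z ≠ v := by
    rintro rfl
    exact hzy' hvy
  have z2 : ¬ Nn G v' z := by
    intro z2
    have zv' : z ≠ v' := Nn_ne hK hv' hv hvv.symm z1
    rcases hcc z y v v' hvy.symm hadj hvy'.symm hzy zv zv' with h | h | h
    · exact hzy' h
    · exact not_adj_of_Nn z1 h.symm
    · exact not_adj_of_Nn z2 h.symm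
  have hx : ∀ u, Nn G v u → Nn G v' u → u ≠ v ∧ u ≠ v' ∧ G.Adj u y ∧ z ≠ u := by
    intro u u1 u2
    have uv : u ≠ v := Nn_ne hK hv hv' hvv u2
    have uv' : u ≠ v' := Nn_ne hK hv' hv hvv.symm u1
    have uy : u ≠ y := by
      rintro rfl
      exact y1 u1
    refine ⟨uv, uv', ?_, ?_⟩
    · rcases hcc u y v v' hvy.symm hadj hvy'.symm uy uv uv' with h | h | h
      · exact h
      · exact absurd h.symm (not_adj_of_Nn u1)
      · exact absurd h.symm (not_adj_of_Nn u2)
    · rintro rfl
      exact z2 u2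
  obtain ⟨xv, xv', hxy, zx⟩ := hx x x1 x2
  obtain ⟨xw, xw', hxy', zx'⟩ := hx x' x1' x2'
  by_cases hxz : G.Adj x z
  · have hxz' := hiff.1 hxz
    rcases hcc v x x' z hxx hxz' hxz xv.symm xw.symm zv.symm with h | h | h
    · exact not_adj_of_Nn x1 h
    · exact not_adj_of_Nn x1' h
    · exact not_adj_of_Nn z1 h
  · have hxz' : ¬ G.Adj x' z := fun h => hxz (hiff.2 h)
    rcases hcc z x x' y hxx hxy' hxy zx zx' hzy with h | h | h
    · exact hxz h.symm
    · exact hxz' h.symm
    · exact hzy' h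

/-- Two colours for `Q_{vv'}`. -/
theorem two_col_Q (hcc : CoClawFree G) (hK : G.IsNClique m K) (hmax : G.CliqueFree (m + 1))
    {v v' : V} (h2 : Tr G v) (hv : v ∈ K) (hv' : v' ∈ K) (hvv : v ≠ v') : ∃ z : V, ∀ x x' : V, Nn G v x → Nn G v' x → Nn G v x' → Nn G v' x' →
      G.Adj x x' → ¬ (G.Adj x z ↔ G.Adj x' z) := by
  obtain ⟨z, y, hz, y1, y2, hzy, hzy'⟩ := exists_exit hK hmax h2 hv hv' hvv
  refine ⟨z, fun x x' x1 x2 x1' x2' hxx => ?_⟩
  rcases hz with z1 | z1
  · exact two_col_Q_aux hcc hK hv hv' hvv z1 y1 y2 hzy hzy' x1 x2 x1' x2' hxx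
  · exact two_col_Q_aux hcc hK hv' hv hvv.symm z1 y2 y1 hzy hzy' x2 x1 x2' x1' hxx

theorem reach_of_Nn (hK : G.IsNClique m K) {v l u : V} (hv : v ∈ K) (hl : l ∈ K) (hvl : v ≠ l)
    (n1 : Nn G v u) (n2 : Nn G l u) : Gᶜ.Reachable l v := by
  have uv : u ≠ v := Nn_ne hK hv hl hvl n2
  have ul : u ≠ l := Nn_ne hK hl hv hvl.symm n1
  have e1 : Gᶜ.Adj v u := by
    rw [compl_adj]; exact ⟨uv.symm, not_adj_of_Nn n1⟩
  have e2 : Gᶜ.Adj l u := by
    rw [compl_adj]; exact ⟨ul.symm, not_adj_of_Nn n2⟩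
  exact e2.reachable.trans e1.symm.reachable

/-- `χ ≤ 2ω`. -/
theorem colorable_claw (hcc : CoClawFree G) (hK : G.IsNClique m K) (hmax : G.CliqueFree (m + 1))
    (hcomp : CompCond G) : G.Colorable (2 * m) := by
  classical
  -- the graph of types
  let R : SimpleGraph V :=
    { Adj := fun v v' => v ≠ v' ∧ ∃ u, Nn G v u ∧ Nn G v' u
      symm := ⟨fun v v' h => ⟨h.1.symm, h.2.imp fun u hu => ⟨hu.2, hu.1⟩⟩⟩
      loopless := ⟨fun v h => h.1 rfl⟩ }
  have hR : ∀ v v', R.Adj v v' ↔ v ≠ v' ∧ ∃ u, Nn G v u ∧ Nn G v' u := fun v v' => Iff.rfl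
  set J : Finset V := K.filter (Tr G) with hJ
  have hJK : ∀ v ∈ J, v ∈ K := fun v hv => (Finset.mem_filter.1 hv).1
  have hJT : ∀ v, v ∈ K → Tr G v → v ∈ J := fun v hv ht => Finset.mem_filter.2 ⟨hv, ht⟩
  -- the partner of an element of `J` is in `J`
  have hpart : ∀ v l u, v ∈ K → Tr G v → l ∈ K → l ≠ v → Nn G v u → Nn G l u → l ∈ J := by
    intro v l u hv ht hl hlv n1 n2
    exact hJT l hl (ht.of_reachable (reach_of_Nn hK hv hl hlv.symm n1 n2))
  obtain ⟨own, c, ho, hsum, hloc⟩ := exists_own R J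
  -- owners
  have h1 : ∀ u : V, ∃ v : K, Nn G v u ∧
      (Tr G v → ∀ l ∈ K, l ≠ v → Nn G l u → own v l) := by
    intro u
    obtain ⟨v, hv, hvu⟩ := exists_nonadj G m K hK hmax u
    by_cases ht : Tr G v
    · by_cases hex : ∃ l ∈ K, l ≠ v ∧ Nn G l u
      · obtain ⟨l, hl, hlv, hlu⟩ := hex
        have hadj : R.Adj v l := (hR v l).2 ⟨hlv.symm, u, hvu, hlu⟩
        have hlJ : l ∈ J := hpart v l u hv ht hl hlv hvu hlu
        rcases ho v (hJT v hv ht) l hlJ hadj with h | h
        · refine ⟨⟨v, hv⟩, hvu, fun _ l' hl' hl'v hl'u => ?_⟩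
          have : l' = l := by
            by_contra hne
            exact no_three hcc hK hv hl hl' hlv.symm (Ne.symm hl'v) (Ne.symm hne) hvu hlu hl'u
          rw [this]
          exact h
        · refine ⟨⟨l, hl⟩, hlu, fun _ l' hl' hl'l hl'u => ?_⟩
          have : l' = v := by
            by_contra hne
            exact no_three hcc hK hv hl hl' hlv.symm (Ne.symm hne) (Ne.symm hl'l) hvu hlu hl'u
          rw [this]
          exact h
      · refine ⟨⟨v, hv⟩, hvu, fun _ l hl hlv hlu => ?_⟩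
        exact absurd ⟨l, hl, hlv, hlu⟩ hex
    · exact ⟨⟨v, hv⟩, hvu, fun h => absurd h ht⟩
  choose p hp1 hp2 using h1
  let c' : V → ℕ := fun v => if Tr G v then c v else 2
  -- local colourings
  have h3 : ∀ v : K, ∃ f : V → Fin (c' v), ∀ x y : V, Nn G v x → Nn G v y →
      (Tr G v → ∀ l ∈ K, l ≠ v → Nn G l x → own v l) →
      (Tr G v → ∀ l ∈ K, l ≠ v → Nn G l y → own v l) →
      G.Adj x y → f x ≠ f y := by
    rintro ⟨v, hv⟩
    simp only
    by_cases ht : Tr G v
    · have hc' : c' v = c v := if_pos ht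
      rw [hc']
      have hvJ := hJT v hv ht
      rcases hloc v hvJ with ⟨e1, e2⟩ | ⟨e1, l, hl, e2, e3⟩ | ⟨e1, j, hj, e2⟩
      · refine ⟨fun _ => ⟨0, by omega⟩, fun x y hx hy hx' hy' hxy => ?_⟩
        exfalso
        refine private_indep hK hmax hv hx hy ?_ ?_ hxy
        · intro l hl hlv hlx
          exact e2 l (hpart v l x hv ht hl hlv hx hlx) ((hR v l).2 ⟨hlv.symm, x, hx, hlx⟩)
            (hx' ht l hl hlv hlx)
        · intro l hl hlv hly
          exact e2 l (hpart v l y hv ht hl hlv hy hly) ((hR v l).2 ⟨hlv.symm, y, hy, hly⟩)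
            (hy' ht l hl hlv hly)
      · obtain ⟨hvl, z, z1, z2⟩ := (hR v l).1 e2
        have hlK := hJK l hl
        refine ⟨fun x => if G.Adj x z then ⟨0, by omega⟩ else ⟨1, by omega⟩,
          fun x y hx hy hx' hy' hxy => ?_⟩
        have x2 : ¬ Nn G l x := fun h => e3 (hx' ht l hlK hvl.symm h)
        have y2 : ¬ Nn G l y := fun h => e3 (hy' ht l hlK hvl.symm h)
        have hiff := two_col hcc hK hv hlK hvl z1 z2 hx x2 hy y2 hxy
        simp only
        by_cases a1 : G.Adj x z <;> by_cases a2 : G.Adj y z <;> simp [a1, a2] at hiff ⊢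
      · -- `v` has at most one neighbour `j`
        by_cases hjv : j ≠ v
        · obtain ⟨z, hz⟩ := two_col_Q hcc hK hmax ht hv (hJK j hj) hjv.symm
          refine ⟨fun x => if Nn G j x then (if G.Adj x z then ⟨1, by omega⟩ else ⟨2, by omega⟩)
            else ⟨0, by omega⟩, fun x y hx hy hx' hy' hxy => ?_⟩
          by_cases b1 : Nn G j x <;> by_cases b2 : Nn G j y
          · have hiff := hz x y hx b1 hy b2 hxy
            by_cases a1 : G.Adj x z <;> by_cases a2 : G.Adj y z <;>
              simp [a1, a2, b1, b2] at hiff ⊢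
          · by_cases a1 : G.Adj x z <;> simp [b1, b2, a1]
          · by_cases a2 : G.Adj y z <;> simp [b1, b2, a2]
          · exfalso
            refine private_indep hK hmax hv hx hy ?_ ?_ hxy
            · intro l hl hlv hlx
              have := e2 l (hpart v l x hv ht hl hlv hx hlx)
                ((hR v l).2 ⟨hlv.symm, x, hx, hlx⟩)
              exact b1 (this ▸ hlx)
            · intro l hl hlv hly
              have := e2 l (hpart v l y hv ht hl hlv hy hly)
                ((hR v l).2 ⟨hlv.symm, y, hy, hly⟩)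
              exact b2 (this ▸ hly)
        · rw [not_not] at hjv
          refine ⟨fun _ => ⟨0, by omega⟩, fun x y hx hy hx' hy' hxy => ?_⟩
          exfalso
          refine private_indep hK hmax hv hx hy ?_ ?_ hxy
          · intro l hl hlv hlx
            have hlj := e2 l (hpart v l x hv ht hl hlv hx hlx)
              ((hR v l).2 ⟨hlv.symm, x, hx, hlx⟩)
            exact hlv (hlj.trans hjv)
          · intro l hl hlv hly
            have hlj := e2 l (hpart v l y hv ht hl hlv hy hly)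
              ((hR v l).2 ⟨hlv.symm, y, hy, hly⟩)
            exact hlv (hlj.trans hjv)
    · have hc' : c' v = 2 := if_neg ht
      rw [hc']
      obtain ⟨ψ⟩ := (hcomp v).resolve_left ht
      refine ⟨fun x => if hx : x ≠ v ∧ ¬ G.Adj v x then ψ ⟨x, hx⟩ else 0, ?_⟩
      intro x y hx hy _ _ hxy
      have hx2 : x ≠ v ∧ ¬ G.Adj v x := by
        refine ⟨?_, not_adj_of_Nn hx⟩
        rintro rfl
        exact not_adj_of_Nn hy hxy
      have hy2 : y ≠ v ∧ ¬ G.Adj v y := by
        refine ⟨?_, not_adj_of_Nn hy⟩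
        rintro rfl
        exact not_adj_of_Nn hx hxy.symm
      simp only [dif_pos hx2, dif_pos hy2]
      exact ψ.valid (by simpa using hxy)
  choose f hf using h3
  have hcol : ∀ x y : V, G.Adj x y →
      (⟨p x, f (p x) x⟩ : Σ v : K, Fin (c' v)) ≠ ⟨p y, f (p y) y⟩ := by
    intro x y hxy heq
    have e1 : p x = p y := congrArg Sigma.fst heq
    have hy1 := hp1 y
    have hy2 := hp2 y
    rw [← e1] at hy1 hy2
    have e2 : f (p x) x = f (p x) y := by
      have := heq
      rw [← e1] at this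
      simpa using this
    exact hf (p x) x y (hp1 x) hy1 (hp2 x) hy2 hxy e2
  have C : G.Coloring (Σ v : K, Fin (c' v)) :=
    Coloring.mk (fun x => ⟨p x, f (p x) x⟩) (fun {u v} h => hcol u v h)
  have h5 := C.colorable
  have hcard : Fintype.card (Σ v : K, Fin (c' v)) = ∑ v ∈ K, c' v := by
    rw [Fintype.card_sigma]
    simp only [Fintype.card_fin]
    exact Finset.sum_coe_sort K c'
  have hsum' : ∑ v ∈ K, c' v ≤ 2 * m := by
    have e1 : ∑ v ∈ K, c' v = ∑ v ∈ K.filter (Tr G), c v + ∑ v ∈ K.filter (fun v => ¬ Tr G v), 2 :=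
      Finset.sum_ite _ _
    rw [e1, Finset.sum_const, smul_eq_mul, ← hK.card_eq,
      ← Finset.card_filter_add_card_filter_not (s := K) (Tr G)]
    rw [hJ] at hsum
    omega
  rw [hcard] at h5
  exact h5.mono hsum'

end

/-- **Complements of claw-free graphs.** -/
theorem split_claw [Finite V] (G : SimpleGraph V) (a b : ℕ) (ha : 2 ≤ a) (hb : 2 ≤ b)
    (hG : ¬ G.Colorable (a + b - 2)) (hfree : G.CliqueFree (a + b - 1))
    (hcc : CoClawFree G) (hcomp : CompCond G) : Split G a b := by
  obtain ⟨m, K, hK, hmax⟩ := exists_max_clique G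
  have hm : ¬ G.CliqueFree m := fun h => h K hK
  exact split_coclaw G a b ha hb hG hfree hcc m hm (colorable_claw hcc hK hmax hcomp)

end Pool.Agent.H50.ELT
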