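import Pool.Agent.H50.ELT.Quasi

/-!
# Triangle-free graphs: splitting off a three-chromatic graph
-/

namespace Pool.Agent.H50.ELT

open SimpleGraph

variable {V : Type*}

theorem exists_pred (G : SimpleGraph V) (v u : V) (n : ℕ) (hr : G.Reachable v u)
    (hd : G.dist v u = n + 1) : ∃ u', G.Adj u' u ∧ G.Reachable v u' ∧ G.dist v u' = n := by
  obtain ⟨p, hp⟩ := hr.symm.exists_walk_length_eq_dist
  rw [dist_comm, hd] at hp
  cases p with
  | nil => simp at hp
  | cons h q =>
    rename_i u'
    rw [Walk.length_cons] at hp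
    have hq : q.length = n := by omega
    have h1 : G.dist u' v ≤ n := hq ▸ dist_le q
    rw [dist_comm] at h1
    have hr' : G.Reachable v u' := ⟨q.reverse⟩
    refine ⟨u', h.symm, hr', ?_⟩
    have h2 : G.dist v u ≤ G.dist v u' + G.dist u' u := hr'.dist_triangle_left u
    have h3 : G.dist u' u = 1 := dist_eq_one_iff_adj.2 h.symm
    omega

theorem parity_of_adj (G : SimpleGraph V) {v x y : V} (hxy : G.Adj x y)
    (hne : G.dist v x ≠ G.dist v y) : G.dist v x % 2 ≠ G.dist v y % 2 := by
  have := hxy.diff_dist_adj (u := v)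
  omega

/-- A graph that is not bipartite has an edge inside a distance layer. -/
theorem exists_layer_edge (G : SimpleGraph V) (h : ¬ G.Colorable 2) :
    ∃ v x y : V, G.Reachable v x ∧ G.Adj x y ∧ G.dist v x = G.dist v y := by
  classical
  by_contra hcon
  push Not at hcon
  apply h
  let rep : V → V := fun u => (G.connectedComponentMk u).out
  have hrep : ∀ u, G.Reachable (rep u) u := by
    intro u
    have : G.connectedComponentMk (rep u) = G.connectedComponentMk u := Quot.out_eq _
    exact ConnectedComponent.exact this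
  have hadj : ∀ u u', G.Adj u u' → rep u = rep u' := by
    intro u u' huu
    simp only [rep]
    rw [ConnectedComponent.eq.2 huu.reachable]
  refine ⟨Coloring.mk (fun u => (⟨G.dist (rep u) u % 2, Nat.mod_lt _ (by norm_num)⟩ : Fin 2)) ?_⟩
  intro u u' huu heq
  have h1 := congrArg Fin.val heq
  simp only at h1
  rw [← hadj u u' huu] at h1
  exact parity_of_adj G huu (hcon (rep u) u u' (hrep u) huu) h1

/-- Triangle-free graphs are `(3, b)`-splittable. -/
theorem split_three [Finite V] (G : SimpleGraph V) (b : ℕ) (hb : 2 ≤ b)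
    (hG : ¬ G.Colorable (3 + b - 2)) (htf : ∀ x y z, G.Adj x y → G.Adj y z → ¬ G.Adj x z) :
    Split G 3 b := by
  classical
  have h2 : ¬ G.Colorable 2 := fun h => hG (h.mono (by omega))
  obtain ⟨v, hv⟩ := exists_layer_edge G h2
  have hex : ∃ i, ∃ x y, G.Reachable v x ∧ G.Adj x y ∧ G.dist v x = i ∧ G.dist v y = i := by
    obtain ⟨x, y, h1, h2, h3⟩ := hv
    exact ⟨G.dist v x, x, y, h1, h2, rfl, h3.symm⟩
  set r := Nat.find hex with hr
  obtain ⟨x, y, hvx, hxy, dx, dy⟩ := Nat.find_spec hex
  rw [← hr] at dx dy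
  have hvy : G.Reachable v y := hvx.trans hxy.reachable
  have hmin : ∀ s t, G.Reachable v s → G.Adj s t → G.dist v s < r →
      G.dist v s % 2 ≠ G.dist v t % 2 := by
    intro s t hs hst hlt
    apply parity_of_adj G hst
    intro heq
    exact Nat.find_min hex hlt ⟨s, t, hs, hst, rfl, heq.symm⟩
  have hr0 : 0 < r := by
    by_contra h0
    have h0' : r = 0 := by omega
    rw [h0'] at dx dy
    have e1 := (hvx.dist_eq_zero_iff).1 dx
    have e2 := (hvy.dist_eq_zero_iff).1 dy
    exact hxy.ne (e1.symm.trans e2)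
  -- the ball and the set `A`
  let B : Set V := {u | G.Reachable v u ∧ G.dist v u < r}
  let A : Set V := {u | u ∈ B ∨ u = x ∨ G.Adj x u}
  have hxB : x ∉ B := fun h => by
    have := h.2
    omega
  have hBA : ∀ u, u ∈ B → u ∈ A := fun u hu => Or.inl hu
  have hvB : v ∈ B := ⟨Reachable.refl v, by simpa using hr0⟩
  refine split_of G A Aᶜ 3 b (by norm_num) (by omega) disjoint_compl_right ?_ ?_
  · -- `A` is not bipartite
    rintro ⟨ψ⟩
    have hpar : ∀ (n : ℕ) (u : V) (hu : u ∈ A), G.Reachable v u → G.dist v u = n → n ≤ r →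
        ((ψ ⟨u, hu⟩ : Fin 2) : ℕ) % 2 = ((ψ ⟨v, hBA v hvB⟩ : ℕ) + n) % 2 := by
      intro n
      induction n with
      | zero =>
        intro u hu hru hd _
        have : v = u := (hru.dist_eq_zero_iff).1 hd
        subst this
        simp
      | succ n ih =>
        intro u hu hru hd hn
        obtain ⟨u', hadj, hru', hd'⟩ := exists_pred G v u n hru hd
        have hu' : u' ∈ B := ⟨hru', by omega⟩
        have h1 := ih u' (hBA u' hu') hru' hd' (by omega)
        have h2 : ψ ⟨u', hBA u' hu'⟩ ≠ ψ ⟨u, hu⟩ := ψ.valid (by simpa using hadj)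
        have h3 : ((ψ ⟨u', hBA u' hu'⟩ : Fin 2) : ℕ) ≠ ((ψ ⟨u, hu⟩ : Fin 2) : ℕ) :=
          fun h => h2 (Fin.ext h)
        have h4 := (ψ ⟨u', hBA u' hu'⟩).isLt
        have h5 := (ψ ⟨u, hu⟩).isLt
        simp only [Nat.add_one_sub_one] at h4 h5
        omega
    have hxA : x ∈ A := Or.inr (Or.inl rfl)
    have hyA : y ∈ A := Or.inr (Or.inr hxy)
    have h1 := hpar r x hxA hvx dx le_rfl
    have h2 := hpar r y hyA hvy dy le_rfl
    have h3 : ψ ⟨x, hxA⟩ ≠ ψ ⟨y, hyA⟩ := ψ.valid (by simpa using hxy)
    apply h3
    apply Fin.ext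
    have h4 := (ψ ⟨x, hxA⟩).isLt
    have h5 := (ψ ⟨y, hyA⟩).isLt
    simp only [Nat.add_one_sub_one] at h4 h5
    omega
  · -- the rest is not `(b-1)`-colourable
    rintro ⟨ψ⟩
    apply hG
    have hb1 : 0 < b - 1 := by omega
    let f : V → Fin (b - 1) ⊕ Fin 2 := fun u =>
      if hA : u ∈ A then
        (if u ∈ B then
          (if G.dist v u % 2 = (r - 1) % 2 then Sum.inr 1 else Sum.inl ⟨0, hb1⟩)
        else if u = x then Sum.inl ⟨0, hb1⟩ else Sum.inr 0)
      else Sum.inl (ψ ⟨u, hA⟩)
    have fB1 : ∀ u, u ∈ B → G.dist v u % 2 = (r - 1) % 2 → f u = Sum.inr 1 := by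
      intro u hu hd
      simp only [f, dif_pos (hBA u hu), if_pos hu, if_pos hd]
    have fB2 : ∀ u, u ∈ B → G.dist v u % 2 ≠ (r - 1) % 2 → f u = Sum.inl ⟨0, hb1⟩ := by
      intro u hu hd
      simp only [f, dif_pos (hBA u hu), if_pos hu, if_neg hd]
    have fx : f x = Sum.inl ⟨0, hb1⟩ := by
      simp only [f, dif_pos (show x ∈ A from Or.inr (Or.inl rfl)), if_neg hxB, if_true]
    have fN : ∀ u, u ∉ B → G.Adj x u → f u = Sum.inr 0 := by
      intro u hu hadj
      simp only [f, dif_pos (show u ∈ A from Or.inr (Or.inr hadj)), if_neg hu,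
        if_neg hadj.ne']
    have fO : ∀ u (hA : u ∉ A), f u = Sum.inl (ψ ⟨u, hA⟩) := by
      intro u hA
      simp only [f, dif_neg hA]
    -- neighbours of the ball
    have hnbB : ∀ u w, u ∈ B → G.Adj u w → w ∉ B → G.dist v u = r - 1 := by
      intro u w hu huw hw
      have hrw : G.Reachable v w := hu.1.trans huw.reachable
      have h1 : ¬ G.dist v w < r := fun h => hw ⟨hrw, h⟩
      have h2 := huw.diff_dist_adj (u := v)
      have h3 := hu.2
      omega
    -- five kinds of vertices
    have key : ∀ u w, G.Adj u w → u ∈ B → f u ≠ f w := by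
      intro u w huw hu
      by_cases hd : G.dist v u % 2 = (r - 1) % 2
      · rw [fB1 u hu hd]
        by_cases hw : w ∈ B
        · have := hmin u w hu.1 huw hu.2
          rw [fB2 w hw (by omega)]
          exact Sum.inr_ne_inl
        · by_cases hwA : w ∈ A
          · rcases hwA with h | rfl | h
            · exact absurd h hw
            · rw [fx]; exact Sum.inr_ne_inl
            · rw [fN w hw h]
              intro heq
              exact absurd (Sum.inr_injective heq) (by decide)
          · rw [fO w hwA]; exact Sum.inr_ne_inl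
      · rw [fB2 u hu hd]
        by_cases hw : w ∈ B
        · have := hmin u w hu.1 huw hu.2
          rw [fB1 w hw (by omega)]
          exact Sum.inl_ne_inr
        · exact absurd (by rw [hnbB u w hu huw hw]) hd
    have hcol : ∀ u w, G.Adj u w → f u ≠ f w := by
      intro u w huw
      by_cases hu : u ∈ B
      · exact key u w huw hu
      by_cases hw : w ∈ B
      · exact (key w u huw.symm hw).symm
      by_cases hux : u = x
      · subst hux
        rw [fx, fN w hw huw]
        exact Sum.inl_ne_inr
      by_cases hwx : w = x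
      · subst hwx
        rw [fx, fN u hu huw.symm]
        exact Sum.inr_ne_inl
      by_cases huN : G.Adj x u
      · by_cases hwN : G.Adj x w
        · exact absurd hwN (htf x u w huN huw)
        · rw [fN u hu huN, fO w (by rintro (h | h | h) <;> contradiction)]
          exact Sum.inr_ne_inl
      · by_cases hwN : G.Adj x w
        · rw [fN w hw hwN, fO u (by rintro (h | h | h) <;> contradiction)]
          exact Sum.inl_ne_inr
        · have hu' : u ∉ A := by rintro (h | h | h) <;> contradiction
          have hw' : w ∉ A := by rintro (h | h | h) <;> contradiction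
          rw [fO u hu', fO w hw']
          intro heq
          exact ψ.valid (v := ⟨u, hu'⟩) (w := ⟨w, hw'⟩) (by simpa using huw)
            (Sum.inl_injective heq)
    have C : G.Coloring (Fin (b - 1) ⊕ Fin 2) := Coloring.mk f (fun {u w} h => hcol u w h)
    have h5 := C.colorable
    simp only [Fintype.card_sum, Fintype.card_fin] at h5
    have : b - 1 + 2 = 3 + b - 2 := by omega
    rwa [this] at h5

/-- **Complements of claw-free graphs, `min a b ≤ 3`.** -/
theorem split_small [Finite V] (G : SimpleGraph V) (a b : ℕ) (ha : 2 ≤ a) (hb : 2 ≤ b)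
    (hG : ¬ G.Colorable (a + b - 2)) (hfree : G.CliqueFree (a + b - 1))
    (hcc : CoClawFree G) (hmin : a ≤ 3 ∨ b ≤ 3) : Split G a b := by
  classical
  wlog hab : a ≤ b generalizing a b
  · have hG' : ¬ G.Colorable (b + a - 2) := by rwa [add_comm b a]
    have hfree' : G.CliqueFree (b + a - 1) := by rwa [add_comm b a]
    exact (this b a hb ha hG' hfree' hmin.symm (by omega)).symm
  by_cases hcl : G.CliqueFree a
  · -- then `a = 3`, because `G` has an edge
    have h2 : ¬ G.CliqueFree 2 := by
      intro h2
      apply hG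
      have h1 : G.Colorable 1 := by
        refine ⟨Coloring.mk (fun _ => (0 : Fin 1)) ?_⟩
        intro u w huw
        exfalso
        refine h2 {u, w} ⟨?_, Finset.card_pair huw.ne⟩
        rw [Finset.coe_pair, isClique_pair]
        exact fun _ => huw
      exact h1.mono (by omega)
    have ha3 : a = 3 := by
      by_contra hne
      exact h2 (hcl.mono (by omega))
    subst ha3
    refine split_three G b hb hG ?_
    intro x y z hxy hyz hxz
    exact hcl {x, y, z} (is3Clique_triple_iff.2 ⟨hxy, hxz, hyz⟩)
  · exact split_global G a b (by omega) hb hG hfree hcl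
      (fun w s hs => hcc.clique a ha w s hs)

end Pool.Agent.H50.ELT
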