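import Pool.Agent.H50.ELT.Claw
import Pool.Agent.H50.ELT.Tri

/-!
# Complements of claw-free graphs: the general statement
-/

namespace Pool.Agent.H50.ELT

open SimpleGraph

variable {V : Type*}

theorem induce_mono (G : SimpleGraph V) {S T : Set V} (h : S ⊆ T) {p : ℕ}
    (hT : (G.induce T).Colorable p) : (G.induce S).Colorable p := by
  obtain ⟨ψ⟩ := hT
  exact ⟨Coloring.mk (fun x => ψ ⟨x, h x.2⟩) (fun {x y} hxy => ψ.valid (by simpa using hxy))⟩

theorem colorable_union (G : SimpleGraph V) {S T : Set V} {p q : ℕ}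
    (hS : (G.induce S).Colorable p) (hT : (G.induce T).Colorable q) :
    (G.induce (S ∪ T)).Colorable (p + q) := by
  classical
  obtain ⟨ψ⟩ := hS
  obtain ⟨θ⟩ := hT
  have C : (G.induce (S ∪ T)).Coloring (Fin p ⊕ Fin q) := Coloring.mk
    (fun x => if h : (x : V) ∈ S then Sum.inl (ψ ⟨x, h⟩) else Sum.inr (θ ⟨x, x.2.resolve_left h⟩))
    (by
      intro x y hxy
      have hxy' : G.Adj x y := hxy
      by_cases hx : (x : V) ∈ S <;> by_cases hy : (y : V) ∈ S
      · simp only [dif_pos hx, dif_pos hy]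
        intro heq
        exact ψ.valid (v := ⟨x, hx⟩) (w := ⟨y, hy⟩) (by simpa using hxy') (Sum.inl_injective heq)
      · simp [hx, hy]
      · simp [hx, hy]
      · simp only [dif_neg hx, dif_neg hy]
        intro heq
        exact θ.valid (v := ⟨x, x.2.resolve_left hx⟩) (w := ⟨y, y.2.resolve_left hy⟩)
          (by simpa using hxy') (Sum.inr_injective heq))
  have := C.colorable
  simpa using this

/-- Joins. -/
theorem join_not_colorable (G : SimpleGraph V) {S T : Set V} {p q : ℕ}
    (hj : ∀ x ∈ S, ∀ y ∈ T, G.Adj x y) (hS : ¬ (G.induce S).Colorable p)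
    (hT : ¬ (G.induce T).Colorable q) : ¬ (G.induce (S ∪ T)).Colorable (p + q + 1) := by
  classical
  rintro ⟨ψ⟩
  let fS : S → Fin (p + q + 1) := fun x => ψ ⟨x, Or.inl x.2⟩
  let fT : T → Fin (p + q + 1) := fun x => ψ ⟨x, Or.inr x.2⟩
  let cS : Finset (Fin (p + q + 1)) := Finset.univ.filter (fun c => ∃ x, fS x = c)
  let cT : Finset (Fin (p + q + 1)) := Finset.univ.filter (fun c => ∃ x, fT x = c)
  have hdis : Disjoint cS cT := by
    rw [Finset.disjoint_left]
    intro c h1 h2
    obtain ⟨x, hx⟩ := (Finset.mem_filter.1 h1).2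
    obtain ⟨y, hy⟩ := (Finset.mem_filter.1 h2).2
    exact ψ.valid (v := ⟨x, Or.inl x.2⟩) (w := ⟨y, Or.inr y.2⟩)
      (by simpa using hj x x.2 y y.2) (hx.trans hy.symm)
  have hcS : p < cS.card := by
    by_contra hlt
    apply hS
    have C : (G.induce S).Coloring cS := Coloring.mk
      (fun x => ⟨fS x, Finset.mem_filter.2 ⟨Finset.mem_univ _, x, rfl⟩⟩) (by
        intro x y hxy heq
        exact ψ.valid (v := ⟨x, Or.inl x.2⟩) (w := ⟨y, Or.inl y.2⟩) (by simpa using hxy)
          (congrArg Subtype.val heq))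
    have := C.colorable
    rw [Fintype.card_coe] at this
    exact this.mono (by omega)
  have hcT : q < cT.card := by
    by_contra hlt
    apply hT
    have C : (G.induce T).Coloring cT := Coloring.mk
      (fun x => ⟨fT x, Finset.mem_filter.2 ⟨Finset.mem_univ _, x, rfl⟩⟩) (by
        intro x y hxy heq
        exact ψ.valid (v := ⟨x, Or.inr x.2⟩) (w := ⟨y, Or.inr y.2⟩) (by simpa using hxy)
          (congrArg Subtype.val heq))
    have := C.colorable
    rw [Fintype.card_coe] at this
    exact this.mono (by omega)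
  have h1 := Finset.card_le_univ (cS ∪ cT)
  rw [Finset.card_union_of_disjoint hdis, Fintype.card_fin] at h1
  omega

theorem induce_induce (G : SimpleGraph V) {C : Set V} (S : Set C) {p : ℕ}
    (h : (G.induce (Subtype.val '' S)).Colorable p) : ((G.induce C).induce S).Colorable p := by
  obtain ⟨ψ⟩ := h
  exact ⟨Coloring.mk (fun x => ψ ⟨x.1.1, x.1, x.2, rfl⟩)
    (fun {x y} hxy => ψ.valid (by simpa using hxy))⟩

/-- There is a threshold. -/
theorem exists_chi [Finite V] (G : SimpleGraph V) (S : Set V) :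
    ∃ n : ℕ, ∀ p, (G.induce S).Colorable p ↔ n ≤ p := by
  classical
  have := Fintype.ofFinite V
  have hex : ∃ n, (G.induce S).Colorable n := ⟨_, colorable_of_fintype _⟩
  refine ⟨Nat.find hex, fun p => ⟨fun h => Nat.find_min' hex h, fun h => ?_⟩⟩
  exact (Nat.find_spec hex).mono h

/-- Splitting a set into two sets of prescribed chromatic numbers. -/
theorem exists_parts [Finite V] (G : SimpleGraph V) (S : Set V) (p q : ℕ)
    (h : p + q = 0 ∨ ¬ (G.induce S).Colorable (p + q - 1)) :
    ∃ A B : Set V, A ⊆ S ∧ B ⊆ S ∧ Disjoint A B ∧ (p = 0 ∨ ¬ (G.induce A).Colorable (p - 1)) ∧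
      (q = 0 ∨ ¬ (G.induce B).Colorable (q - 1)) := by
  classical
  rcases Nat.eq_zero_or_pos p with hp | hp
  · subst hp
    refine ⟨∅, S, Set.empty_subset _, subset_rfl, Set.empty_disjoint _, Or.inl rfl, ?_⟩
    simpa using h
  have h' : ¬ (G.induce S).Colorable (p + q - 1) := h.resolve_left (by omega)
  have h1 : ¬ (G.induce S).Colorable (p - 1) := fun hc => h' (hc.mono (by omega))
  obtain ⟨A, hA, hA2⟩ := exists_exact G S p hp h1
  have hA3 : (G.induce A).Colorable p := by
    rw [← chromaticNumber_le_iff_colorable, hA2]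
  have hA4 : ¬ (G.induce A).Colorable (p - 1) := by
    rw [← chromaticNumber_le_iff_colorable, hA2]
    intro hle
    have : p ≤ p - 1 := by exact_mod_cast hle
    omega
  refine ⟨A, S \ A, hA, Set.sdiff_subset, Set.disjoint_sdiff_right, Or.inr hA4, ?_⟩
  rcases Nat.eq_zero_or_pos q with hq | hq
  · exact Or.inl hq
  right
  intro hc
  apply h'
  have := colorable_union G hA3 hc
  rw [Set.union_sdiff_cancel hA] at this
  exact this.mono (by omega)

/-- The general condition with a bound `N` for the exceptional components. -/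
def CompCondN (G : SimpleGraph V) (N : ℕ) : Prop :=
  ∀ v : V, Tr G v ∨ (G.induce {u | u ≠ v ∧ ¬ G.Adj v u}).Colorable 2 ∨
    (G.induce {u | Gᶜ.Reachable v u}).Colorable N

/-- **Complements of claw-free graphs.** -/
theorem split_main [Finite V] (G : SimpleGraph V) (a b : ℕ) (ha : 2 ≤ a) (hb : 2 ≤ b)
    (hG : ¬ G.Colorable (a + b - 2)) (hfree : G.CliqueFree (a + b - 1))
    (hcc : CoClawFree G) (hcomp : CompCondN G (max a b + 2)) : Split G a b := by
  classical
  wlog hab : a ≤ b generalizing a b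
  · have hG' : ¬ G.Colorable (b + a - 2) := by rwa [add_comm b a]
    have hfree' : G.CliqueFree (b + a - 1) := by rwa [add_comm b a]
    exact (this b a hb ha hG' hfree' (by rwa [max_comm]) (by omega)).symm
  rw [max_eq_right hab] at hcomp
  by_cases hcl : ¬ G.CliqueFree a
  · exact split_global G a b (by omega) hb hG hfree hcl
      (fun w s hs => hcc.clique a ha w s hs)
  rw [not_not] at hcl
  by_cases hc : CompCond G
  · exact split_claw G a b ha hb hG hfree hcc hc
  -- an exceptional component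
  unfold CompCond at hc
  push Not at hc
  obtain ⟨v, hv1, hv2⟩ := hc
  have hN := ((hcomp v).resolve_left hv1).resolve_left hv2
  set C : Set V := {u | Gᶜ.Reachable v u} with hC
  have hCtri : ∀ x y z, x ∈ C → y ∈ C → z ∈ C → G.Adj x y → G.Adj y z → ¬ G.Adj x z :=
    fun x y z hx hy hz hxy hyz hxz => hv1 ⟨x, y, z, hxy, hyz, hxz, hx, hy, hz⟩
  have hsub : {u | u ≠ v ∧ ¬ G.Adj v u} ⊆ C := by
    intro u hu
    have : Gᶜ.Adj v u := by rw [compl_adj]; exact ⟨hu.1.symm, hu.2⟩
    exact this.reachable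
  have hC2 : ¬ (G.induce C).Colorable 2 := fun h => hv2 (induce_mono G hsub h)
  have hjoin : ∀ x ∈ C, ∀ y ∈ Cᶜ, G.Adj x y := by
    intro x hx y hy
    by_contra hadj
    apply hy
    have hne : x ≠ y := by
      rintro rfl
      exact hy hx
    have : Gᶜ.Adj x y := by rw [compl_adj]; exact ⟨hne, hadj⟩
    exact Reachable.trans hx this.reachable
  obtain ⟨n1, hn1⟩ := exists_chi G C
  obtain ⟨n2, hn2⟩ := exists_chi G Cᶜ
  have h3 : 3 ≤ n1 := by
    by_contra hlt
    exact hC2 ((hn1 2).2 (by omega))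
  have h4 : n1 ≤ b + 2 := (hn1 _).1 hN
  have hsum : a + b - 1 ≤ n1 + n2 := by
    by_contra hlt
    apply hG
    have h5 := colorable_union G ((hn1 n1).2 le_rfl) ((hn2 n2).2 le_rfl)
    rw [Set.union_compl_self] at h5
    obtain ⟨ψ⟩ := h5
    have h6 : G.Colorable (n1 + n2) :=
      ⟨Coloring.mk (fun x => ψ ⟨x, Set.mem_univ x⟩) (fun {x y} hxy => ψ.valid (by simpa using hxy))⟩
    exact h6.mono (by omega)
  -- `a` is at least three, because `G` has an edge
  have ha3 : 3 ≤ a := by
    by_contra hlt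
    have ha2 : a = 2 := by omega
    subst ha2
    apply hG
    have h1 : G.Colorable 1 := by
      refine ⟨Coloring.mk (fun _ => (0 : Fin 1)) ?_⟩
      intro u w huw
      exfalso
      refine hcl {u, w} ⟨?_, Finset.card_pair huw.ne⟩
      rw [Finset.coe_pair, isClique_pair]
      exact fun _ => huw
    exact h1.mono (by omega)
  -- split the component
  have hccC : CoClawFree (G.induce C) := by
    intro w x y z hxy hyz hxz hwx hwy hwz
    exact absurd hxz (hCtri x y z x.2 y.2 z.2 hxy hyz)
  obtain ⟨a1, b1, ha1, hb1, hab1, ha1', hb1', hs⟩ : ∃ a1 b1, 2 ≤ a1 ∧ 2 ≤ b1 ∧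
      a1 + b1 = n1 + 1 ∧ a1 ≤ a ∧ b1 ≤ b ∧ Split (G.induce C) a1 b1 := by
    have hfr : ∀ n, 3 ≤ n → (G.induce C).CliqueFree n := by
      intro n hn
      refine CliqueFree.mono hn ?_
      intro s hs
      obtain ⟨x, y, z, hxy, hxz, hyz, -⟩ := is3Clique_iff.1 hs
      exact hCtri x y z x.2 y.2 z.2 hxy hyz hxz
    rcases Nat.lt_or_ge n1 4 with h | h
    · refine ⟨2, 2, le_rfl, le_rfl, by omega, ha, hb, ?_⟩
      refine split_small _ 2 2 le_rfl le_rfl ?_ (hfr _ (by norm_num)) hccC (Or.inl (by norm_num))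
      intro hc
      exact hC2 hc
    · refine ⟨3, n1 - 2, by norm_num, by omega, by omega, ha3, by omega, ?_⟩
      refine split_small _ 3 (n1 - 2) (by norm_num) (by omega) ?_ (hfr _ (by omega)) hccC
        (Or.inl le_rfl)
      intro hc
      have := (hn1 _).1 hc
      omega
  obtain ⟨S, T, hST, hS, hT⟩ := hs
  have hS' : ¬ (G.induce (Subtype.val '' S)).Colorable (a1 - 1) := by
    intro h
    have h5 := chromaticNumber_le_iff_colorable.2 (induce_induce G S h)
    rw [hS] at h5
    have : a1 ≤ a1 - 1 := by exact_mod_cast h5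
    omega
  have hT' : ¬ (G.induce (Subtype.val '' T)).Colorable (b1 - 1) := by
    intro h
    have h5 := chromaticNumber_le_iff_colorable.2 (induce_induce G T h)
    rw [hT] at h5
    have : b1 ≤ b1 - 1 := by exact_mod_cast h5
    omega
  -- split the rest
  obtain ⟨A2, B2, hA2, hB2, hAB2, hA2', hB2'⟩ := exists_parts G Cᶜ (a - a1) (b - b1) (by
    rcases Nat.eq_zero_or_pos (a - a1 + (b - b1)) with h | h
    · exact Or.inl h
    · right
      intro hc
      have := (hn2 _).1 hc
      omega)
  have hSC : Subtype.val '' S ⊆ C := by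
    rintro _ ⟨x, -, rfl⟩
    exact x.2
  have hTC : Subtype.val '' T ⊆ C := by
    rintro _ ⟨x, -, rfl⟩
    exact x.2
  have comb : ∀ (X Y : Set V) (p q : ℕ), X ⊆ C → Y ⊆ Cᶜ → 1 ≤ p →
      ¬ (G.induce X).Colorable (p - 1) → (q = 0 ∨ ¬ (G.induce Y).Colorable (q - 1)) →
      ¬ (G.induce (X ∪ Y)).Colorable (p + q - 1) := by
    intro X Y p q hX hY hp h1 h2
    rcases Nat.eq_zero_or_pos q with h0 | h0
    · subst h0
      intro hc
      exact h1 (induce_mono G Set.subset_union_left (by simpa using hc))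
    · have h2' := h2.resolve_left (by omega)
      have := join_not_colorable G (fun x hx y hy => hjoin x (hX hx) y (hY hy)) h1 h2'
      have e : p - 1 + (q - 1) + 1 = p + q - 1 := by omega
      rwa [e] at this
  refine split_of G (Subtype.val '' S ∪ A2) (Subtype.val '' T ∪ B2) a b (by omega) (by omega)
    ?_ ?_ ?_
  · rw [Set.disjoint_union_left, Set.disjoint_union_right, Set.disjoint_union_right]
    refine ⟨⟨?_, ?_⟩, ?_, hAB2⟩
    · exact (Set.disjoint_image_iff Subtype.val_injective).2 hST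
    · exact Set.disjoint_of_subset hSC hB2 disjoint_compl_right
    · exact Set.disjoint_of_subset hA2 hTC disjoint_compl_left
  · have := comb _ _ a1 (a - a1) hSC hA2 (by omega) hS' hA2'
    have e : a1 + (a - a1) - 1 = a - 1 := by omega
    rwa [e] at this
  · have := comb _ _ b1 (b - b1) hTC hB2 (by omega) hT' hB2'
    have e : b1 + (b - b1) - 1 = b - 1 := by omega
    rwa [e] at this

end Pool.Agent.H50.ELT
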