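import Pool.Agent.H50.ELT.Cheap

/-!
# Complements of claw-free graphs with `χ ≤ 2ω`; complements of quasi-line graphs
-/

namespace Pool.Agent.H50.ELT

open SimpleGraph

variable {V : Type*}

/-- `G` is the complement of a claw-free graph: every vertex which is not in a triangle is adjacent
to some vertex of the triangle. -/
def CoClawFree (G : SimpleGraph V) : Prop :=
  ∀ w x y z : V, G.Adj x y → G.Adj y z → G.Adj x z → w ≠ x → w ≠ y → w ≠ z →
    G.Adj w x ∨ G.Adj w y ∨ G.Adj w z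

theorem CoClawFree.clique {G : SimpleGraph V} (h : CoClawFree G) (a : ℕ) (ha : 2 ≤ a) (w : V)
    (s : Finset V) (hs : G.IsNClique (a + 1) s) : ∃ v ∈ s, v = w ∨ G.Adj w v := by
  classical
  by_contra hcon
  push Not at hcon
  have hcard : 2 < s.card := by rw [hs.card_eq]; omega
  obtain ⟨x, y, z, hx, hy, hz, hxy, hxz, hyz⟩ := Finset.two_lt_card_iff.1 hcard
  have h1 : G.Adj x y := hs.isClique (by simpa using hx) (by simpa using hy) hxy
  have h2 : G.Adj y z := hs.isClique (by simpa using hy) (by simpa using hz) hyz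
  have h3 : G.Adj x z := hs.isClique (by simpa using hx) (by simpa using hz) hxz
  rcases h w x y z h1 h2 h3 (hcon x hx).1.symm (hcon y hy).1.symm (hcon z hz).1.symm with h | h | h
  · exact (hcon x hx).2 h
  · exact (hcon y hy).2 h
  · exact (hcon z hz).2 h

/-- Complements of claw-free graphs with `χ ≤ 2ω`. -/
theorem split_coclaw [Finite V] (G : SimpleGraph V) (a b : ℕ) (ha : 2 ≤ a) (hb : 2 ≤ b)
    (hG : ¬ G.Colorable (a + b - 2)) (hfree : G.CliqueFree (a + b - 1))
    (hcc : CoClawFree G) (m : ℕ) (hm : ¬ G.CliqueFree m) (hcol : G.Colorable (2 * m)) :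
    Split G a b := by
  wlog hab : a ≤ b generalizing a b
  · have hG' : ¬ G.Colorable (b + a - 2) := by rwa [add_comm b a]
    have hfree' : G.CliqueFree (b + a - 1) := by rwa [add_comm b a]
    exact (this b a hb ha hG' hfree' (by omega)).symm
  have h1 : a ≤ m := by
    by_contra hlt
    apply hG
    exact hcol.mono (by omega)
  have hcl : ¬ G.CliqueFree a := fun h => hm (h.mono h1)
  exact split_global G a b (by omega) hb hG hfree hcl
    (fun w s hs => hcc.clique a ha w s hs)

/-- A vertex outside a maximum clique has a non-neighbour in it. -/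
theorem exists_nonadj (G : SimpleGraph V) (m : ℕ) (K : Finset V) (hK : G.IsNClique m K)
    (hmax : G.CliqueFree (m + 1)) (u : V) : ∃ v ∈ K, u = v ∨ ¬ G.Adj v u := by
  classical
  by_cases hu : u ∈ K
  · exact ⟨u, hu, Or.inl rfl⟩
  by_contra hcon
  push Not at hcon
  refine hmax (insert u K) ⟨?_, ?_⟩
  · rw [Finset.coe_insert]
    apply IsClique.insert hK.isClique
    intro z hz _
    exact (hcon z (by simpa using hz)).2.symm
  · rw [Finset.card_insert_of_notMem hu, hK.card_eq]

/-- There is a maximum clique. -/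
theorem exists_max_clique [Finite V] (G : SimpleGraph V) :
    ∃ (m : ℕ) (K : Finset V), G.IsNClique m K ∧ G.CliqueFree (m + 1) := by
  classical
  have := Fintype.ofFinite V
  have h0 : ¬ G.CliqueFree 0 := by
    intro h
    exact h ∅ ⟨by simp, by simp⟩
  have hbig : G.CliqueFree (Fintype.card V + 1) := by
    intro s hs
    have := Finset.card_le_univ s
    rw [hs.card_eq] at this
    omega
  have hex : ∃ n, G.CliqueFree (n + 1) := ⟨_, hbig⟩
  refine ⟨Nat.find hex, ?_⟩
  have hspec := Nat.find_spec hex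
  have : ¬ G.CliqueFree (Nat.find hex) := by
    rcases Nat.eq_zero_or_pos (Nat.find hex) with h | h
    · rw [h]; exact h0
    · have h2 := Nat.find_min hex (m := Nat.find hex - 1) (by omega)
      rwa [Nat.sub_add_cancel h] at h2
  unfold CliqueFree at this
  push Not at this
  obtain ⟨K, hK⟩ := this
  exact ⟨K, hK, hspec⟩

/-- Bipartite non-neighbourhoods: `χ ≤ 2ω`. -/
theorem colorable_quasi (G : SimpleGraph V) (m : ℕ) (K : Finset V) (hK : G.IsNClique m K)
    (hmax : G.CliqueFree (m + 1))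
    (hq : ∀ v : V, (G.induce {u | u ≠ v ∧ ¬ G.Adj v u}).Colorable 2) : G.Colorable (2 * m) := by
  classical
  have h1 : ∀ u : V, ∃ v : K, u = v ∨ ¬ G.Adj v u := by
    intro u
    obtain ⟨v, hv, h⟩ := exists_nonadj G m K hK hmax u
    exact ⟨⟨v, hv⟩, h⟩
  choose p hp using h1
  have h2 : ∀ v : V, ∃ c : V → Fin 2, ∀ x y : V, x ≠ v → y ≠ v → ¬ G.Adj v x → ¬ G.Adj v y →
      G.Adj x y → c x ≠ c y := by
    intro v
    obtain ⟨ψ⟩ := hq v
    refine ⟨fun x => if hx : x ≠ v ∧ ¬ G.Adj v x then ψ ⟨x, hx⟩ else 0, ?_⟩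
    intro x y hx hy hx' hy' hxy
    simp only [dif_pos (show x ≠ v ∧ ¬ G.Adj v x from ⟨hx, hx'⟩),
      dif_pos (show y ≠ v ∧ ¬ G.Adj v y from ⟨hy, hy'⟩)]
    exact ψ.valid (by simpa using hxy)
  choose c hc using h2
  have hcol : ∀ x y : V, G.Adj x y → (p x, c (p x) x) ≠ (p y, c (p y) y) := by
    intro x y hxy heq
    rw [Prod.mk.injEq] at heq
    obtain ⟨e1, e2⟩ := heq
    have hx := hp x
    have hy := hp y
    rw [← e1] at hy e2
    have hx2 : x ≠ (p x : V) := by
      intro h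
      rcases hy with h' | h'
      · exact hxy.ne (h.trans h'.symm)
      · rw [← h] at h'
        exact h' hxy
    have hy2 : y ≠ (p x : V) := by
      intro h
      rcases hx with h' | h'
      · exact hx2 h'
      · rw [← h] at h'
        exact h' hxy.symm
    have hx3 : ¬ G.Adj (p x) x := by
      rcases hx with h' | h'
      · exact absurd h' hx2
      · exact h'
    have hy3 : ¬ G.Adj (p x) y := by
      rcases hy with h' | h'
      · exact absurd h' hy2
      · exact h'
    exact hc (p x) x y hx2 hy2 hx3 hy3 hxy e2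
  have C : G.Coloring (K × Fin 2) := Coloring.mk (fun x => (p x, c (p x) x)) (fun {u v} h => hcol u v h)
  have := C.colorable
  have hcard : Fintype.card (K × Fin 2) = 2 * m := by
    rw [Fintype.card_prod, Fintype.card_coe, hK.card_eq, Fintype.card_fin, mul_comm]
  rwa [hcard] at this

theorem coClawFree_of_quasi (G : SimpleGraph V)
    (hq : ∀ v : V, (G.induce {u | u ≠ v ∧ ¬ G.Adj v u}).Colorable 2) : CoClawFree G := by
  intro w x y z hxy hyz hxz hwx hwy hwz
  by_contra hcon
  push Not at hcon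
  obtain ⟨h1, h2, h3⟩ := hcon
  obtain ⟨ψ⟩ := hq w
  have hx : x ∈ {u | u ≠ w ∧ ¬ G.Adj w u} := ⟨hwx.symm, h1⟩
  have hy : y ∈ {u | u ≠ w ∧ ¬ G.Adj w u} := ⟨hwy.symm, h2⟩
  have hz : z ∈ {u | u ≠ w ∧ ¬ G.Adj w u} := ⟨hwz.symm, h3⟩
  have e1 : ψ ⟨x, hx⟩ ≠ ψ ⟨y, hy⟩ := ψ.valid (by simpa using hxy)
  have e2 : ψ ⟨y, hy⟩ ≠ ψ ⟨z, hz⟩ := ψ.valid (by simpa using hyz)
  have e3 : ψ ⟨x, hx⟩ ≠ ψ ⟨z, hz⟩ := ψ.valid (by simpa using hxz)
  generalize ψ ⟨x, hx⟩ = i at e1 e3
  generalize ψ ⟨y, hy⟩ = j at e1 e2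
  generalize ψ ⟨z, hz⟩ = k at e2 e3
  omega

/-- **Complements of quasi-line graphs.** -/
theorem split_quasi [Finite V] (G : SimpleGraph V) (a b : ℕ) (ha : 2 ≤ a) (hb : 2 ≤ b)
    (hG : ¬ G.Colorable (a + b - 2)) (hfree : G.CliqueFree (a + b - 1))
    (hq : ∀ v : V, (G.induce {u | u ≠ v ∧ ¬ G.Adj v u}).Colorable 2) : Split G a b := by
  obtain ⟨m, K, hK, hmax⟩ := exists_max_clique G
  have hm : ¬ G.CliqueFree m := fun h => h K hK
  exact split_coclaw G a b ha hb hG hfree (coClawFree_of_quasi G hq) m hm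
    (colorable_quasi G m K hK hmax hq)

end Pool.Agent.H50.ELT
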