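import Pool.Agent.H50.ELT.AltBound
import Pool.Agent.H50.ELT.Cheap

/-!
# Schrijver graphs are `(a, b)`-splittable
-/

namespace Pool.Agent.H50.ELT

open Finset Pool.Agent.H41.ENL

/-- The lower bound for Schrijver graphs. -/
theorem sg_bound {m r N : ℕ} (hr : 0 < r) (hN : 1 ≤ N)
    (c : {S : Finset (Fin m) // S.card = r ∧ Stable S} → ℕ) (hcN : ∀ v, c v < N)
    (hc : ∀ u v : {S : Finset (Fin m) // S.card = r ∧ Stable S}, Disjoint u.1 v.1 → c u ≠ c v) :
    m + 1 ≤ 2 * r - 1 + N := by
  classical
  have := Fintype.ofFinite {S : Finset (Fin m) // S.card = r ∧ Stable S}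
  refine bound_two (fun v : {S : Finset (Fin m) // S.card = r ∧ Stable S} => v.1) c hcN hc
    (by omega) hN ?_
  intro A B _ h
  obtain ⟨⟨S, hS, hSA⟩, ⟨T, hT, hTB⟩⟩ := exists_stable h
  exact ⟨⟨⟨S, hS⟩, hSA⟩, ⟨⟨T, hT⟩, hTB⟩⟩

section

variable {n m r : ℕ}

/-- The embedding of the short cycle: the first two elements are exchanged and there is a gap. -/
def em (hmn : m + 2 ≤ n) (i : Fin m) : Fin n :=
  ⟨if i.val = 0 then 1 else if i.val = 1 then 0 else i.val + 1, by
    have := i.2
    split_ifs <;> omega⟩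

theorem em_inj (hmn : m + 2 ≤ n) : Function.Injective (em (m := m) hmn) := by
  intro i j hij
  have h := congrArg Fin.val hij
  simp only [em] at h
  apply Fin.ext
  split_ifs at h <;> omega

theorem em_val (hmn : m + 2 ≤ n) (i : Fin m) : (em hmn i).val ≠ 2 ∧ (em hmn i).val ≤ m := by
  have := i.2
  simp only [em]
  split_ifs <;> omega

theorem em_stable (hmn : m + 2 ≤ n) {S : Finset (Fin m)} (hS : Stable S) :
    Stable (S.image (em hmn)) := by
  intro x hx y hy hxy
  obtain ⟨i, hi, rfl⟩ := Finset.mem_image.1 hx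
  obtain ⟨j, hj, rfl⟩ := Finset.mem_image.1 hy
  have h1 := em_val hmn i
  have h2 := hS i hi j hj
  have h3 := hS j hj i hi
  have hi2 := i.2
  have hj2 := j.2
  rw [Nat.mod_eq_of_lt (by omega)] at hxy
  simp only [em] at hxy
  by_cases a1 : i.val + 1 < m
  · by_cases a2 : j.val + 1 < m
    · rw [Nat.mod_eq_of_lt a1] at h2
      rw [Nat.mod_eq_of_lt a2] at h3
      split_ifs at hxy <;> omega
    · rw [Nat.mod_eq_of_lt a1] at h2
      split_ifs at hxy <;> omega
  · have e : i.val + 1 = m := by omega
    rw [e, Nat.mod_self] at h2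
    by_cases a2 : j.val + 1 < m
    · rw [Nat.mod_eq_of_lt a2] at h3
      split_ifs at hxy <;> omega
    · split_ifs at hxy <;> omega

theorem stable_image {g : ℕ → Fin n} (hg : ∀ i j, i < j → j < m → g i < g j) {T : Finset ℕ}
    (hT : ∀ i ∈ T, i < m) (hpar : ∀ i ∈ T, ∀ j ∈ T, i % 2 = j % 2)
    (hcyc : ∀ i ∈ T, ∀ j ∈ T, (g i).val + 1 = n → (g j).val ≠ 0) :
    Stable (T.image g) ∧ (T.image g).card = T.card := by
  constructor
  · intro x hx y hy hxy
    obtain ⟨i, hi, rfl⟩ := Finset.mem_image.1 hx
    obtain ⟨j, hj, rfl⟩ := Finset.mem_image.1 hy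
    have hgi := (g i).2
    by_cases h1 : (g i).val + 1 < n
    · rw [Nat.mod_eq_of_lt h1] at hxy
      have hij : i < j := by
        rcases lt_trichotomy i j with h | h | h
        · exact h
        · subst h; omega
        · have : (g j).val < (g i).val := hg j i h (hT i hi)
          omega
      have hp := hpar i hi j hj
      have h2 : (g i).val < (g (i + 1)).val := hg i (i + 1) (by omega) (by have := hT j hj; omega)
      have h3 : (g (i + 1)).val < (g j).val := hg (i + 1) j (by omega) (hT j hj)
      omega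
    · have e : (g i).val + 1 = n := by omega
      have h2 := hcyc i hi j hj e
      rw [e, Nat.mod_self] at hxy
      exact h2 hxy.symm
  · apply Finset.card_image_of_injOn
    intro i hi j hj hij
    rcases lt_trichotomy i j with h | h | h
    · exact absurd hij (hg i j h (hT j hj)).ne
    · exact h
    · exact absurd hij.symm (hg j i h (hT i hi)).ne

theorem le_g {g : ℕ → Fin n} (hg : ∀ i j, i < j → j < m → g i < g j) :
    ∀ j < m, ∀ i ≤ j, (g i).val + (j - i) ≤ (g j).val := by
  intro j
  induction j with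
  | zero =>
    intro _ i hi
    have : i = 0 := by omega
    subst this
    simp
  | succ j ih =>
    intro hj i hi
    rcases hi.lt_or_eq with h | h
    · have h1 := ih (by omega) i (by omega)
      have h2 : (g j).val < (g (j + 1)).val := hg j (j + 1) (by omega) hj
      omega
    · subst h; simp

/-- Choice of the indices. -/
theorem exists_T (hr : 1 ≤ r) (hm : 2 * r ≤ m) {i : ℕ} (hi : i < m) :
    ∃ T : Finset ℕ, T.card = r ∧ i ∈ T ∧ (∀ j ∈ T, j < m) ∧ (∀ j ∈ T, j % 2 = i % 2) ∧
      ¬ (0 ∈ T ∧ m - 1 ∈ T) := by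
  classical
  -- the candidates, divided by two
  let q : ℕ := i % 2
  have hq : q < 2 := Nat.mod_lt _ (by norm_num)
  let R : Finset ℕ := (range ((m + 1 - q) / 2))
  let z : ℕ := if i / 2 = 0 then (m - 1) / 2 else 0
  have hi0 : i / 2 ∈ R := by
    simp only [R, Finset.mem_range]
    omega
  have hq' : q = i % 2 := rfl
  by_cases hcase : q = 0 ∧ m % 2 = 1
  · -- avoid `z`
    have hz : i / 2 ≠ z := by
      simp only [z]
      split_ifs <;> omega
    have hmem : i / 2 ∈ R.erase z := Finset.mem_erase.2 ⟨hz, hi0⟩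
    have hcard : r ≤ (R.erase z).card := by
      have h1 : R.card - 1 ≤ (R.erase z).card := Finset.pred_card_le_card_erase
      have h2 : R.card = (m + 1 - q) / 2 := Finset.card_range _
      omega
    obtain ⟨T0, h1, h2, h3⟩ := Finset.exists_subsuperset_card_eq
      (Finset.singleton_subset_iff.2 hmem) (by simpa using hr) hcard
    refine ⟨T0.image (fun j => 2 * j + q), ?_, ?_, ?_, ?_, ?_⟩
    · rw [Finset.card_image_of_injective _ (fun a b hab => by
        have : 2 * a + q = 2 * b + q := hab
        omega), h3]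
    · exact Finset.mem_image.2 ⟨i / 2, h1 (Finset.mem_singleton_self _), by omega⟩
    · intro j hj
      obtain ⟨j0, hj0, rfl⟩ := Finset.mem_image.1 hj
      have := Finset.mem_of_mem_erase (h2 hj0)
      simp only [R, Finset.mem_range] at this
      omega
    · intro j hj
      obtain ⟨j0, hj0, rfl⟩ := Finset.mem_image.1 hj
      omega
    · rintro ⟨e1, e2⟩
      obtain ⟨j0, hj0, e1⟩ := Finset.mem_image.1 e1
      obtain ⟨j1, hj1, e2⟩ := Finset.mem_image.1 e2
      have n0 := Finset.ne_of_mem_erase (h2 hj0)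
      have n1 := Finset.ne_of_mem_erase (h2 hj1)
      simp only [z] at n0 n1
      split_ifs at n0 n1 <;> omega
  · have hcard : r ≤ R.card := by
      simp only [R, Finset.card_range]
      omega
    obtain ⟨T0, h1, h2, h3⟩ := Finset.exists_subsuperset_card_eq
      (Finset.singleton_subset_iff.2 hi0) (by simpa using hr) hcard
    refine ⟨T0.image (fun j => 2 * j + q), ?_, ?_, ?_, ?_, ?_⟩
    · rw [Finset.card_image_of_injective _ (fun a b hab => by
        have : 2 * a + q = 2 * b + q := hab
        omega), h3]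
    · exact Finset.mem_image.2 ⟨i / 2, h1 (Finset.mem_singleton_self _), by omega⟩
    · intro j hj
      obtain ⟨j0, hj0, rfl⟩ := Finset.mem_image.1 hj
      have := h2 hj0
      simp only [R, Finset.mem_range] at this
      omega
    · intro j hj
      obtain ⟨j0, hj0, rfl⟩ := Finset.mem_image.1 hj
      omega
    · rintro ⟨e1, e2⟩
      obtain ⟨j0, hj0, e1⟩ := Finset.mem_image.1 e1
      obtain ⟨j1, hj1, e2⟩ := Finset.mem_image.1 e2
      omega

/-- Every long alternating sequence has a member of the second family on one of its sides. -/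
theorem exists_second (hr : 2 ≤ r) (hm : 2 * r ≤ m) (hmn : m + 2 ≤ n) {A B : Finset (Fin n)}
    (h : AltS A B m) : ∃ S : Finset (Fin n), (S.card = r ∧ Stable S) ∧
      (¬ ∃ S' : Finset (Fin m), (S'.card = r ∧ Stable S') ∧ S = S'.image (em hmn)) ∧
      (S ⊆ A ∨ S ⊆ B) := by
  classical
  obtain ⟨g, hg, hgA, hgB⟩ := h
  have hAB : ∀ T : Finset ℕ, (∀ j ∈ T, j < m) → (∃ q, ∀ j ∈ T, j % 2 = q) →
      (T.image g ⊆ A ∨ T.image g ⊆ B) := by
    intro T hT ⟨q, hq⟩
    by_cases h0 : q = 0
    · left
      intro x hx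
      obtain ⟨j, hj, rfl⟩ := Finset.mem_image.1 hx
      exact hgA j (hT j hj) ((hq j hj).trans h0)
    · right
      intro x hx
      obtain ⟨j, hj, rfl⟩ := Finset.mem_image.1 hx
      have := hq j hj
      exact hgB j (hT j hj) (by omega)
  by_cases hY : ∃ i < m, (g i).val = 2 ∨ m < (g i).val
  · obtain ⟨i, hi, hiY⟩ := hY
    obtain ⟨T, hT1, hT2, hT3, hT4, hT5⟩ := exists_T (by omega) hm hi
    have hst := stable_image hg hT3 (fun j hj l hl => (hT4 j hj).trans (hT4 l hl).symm) (by
      intro j hj l hl hjn hl0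
      apply hT5
      constructor
      · -- `l = 0`
        rcases Nat.eq_zero_or_pos l with h | h
        · exact h ▸ hl
        · have : (g 0).val < (g l).val := hg 0 l h (hT3 l hl)
          omega
      · have hjm := hT3 j hj
        rcases Nat.lt_or_ge j (m - 1) with h | h
        · have : (g j).val < (g (m - 1)).val := hg j (m - 1) h (by omega)
          have := (g (m - 1)).2
          omega
        · have : j = m - 1 := by omega
          exact this ▸ hj)
    refine ⟨T.image g, ⟨hst.2.trans hT1, hst.1⟩, ?_, hAB T hT3 ⟨i % 2, hT4⟩⟩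
    rintro ⟨S', -, heq⟩
    have h1 : g i ∈ T.image g := Finset.mem_image_of_mem g hT2
    rw [heq] at h1
    obtain ⟨i', -, hi'⟩ := Finset.mem_image.1 h1
    have h2 := em_val hmn i'
    rw [hi'] at h2
    omega
  · push Not at hY
    have hup : ∀ i < m, (g i).val ≤ i + 1 := by
      intro i hi
      have h1 := le_g hg (m - 1) (by omega) i (by omega)
      have h2 := (hY (m - 1) (by omega)).2
      omega
    have hlo : ∀ i < m, i ≤ (g i).val := by
      intro i hi
      have := le_g hg i hi 0 (Nat.zero_le _)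
      omega
    have g2 : (g 2).val = 3 := by
      have h1 := hup 2 (by omega)
      have h2 := hlo 2 (by omega)
      have h3 := (hY 2 (by omega)).1
      omega
    have g1 : (g 1).val = 1 := by
      have h1 := hup 1 (by omega)
      have h2 := hlo 1 (by omega)
      have h3 := (hY 1 (by omega)).1
      omega
    have g0 : (g 0).val = 0 := by
      have : (g 0).val < (g 1).val := hg 0 1 (by omega) (by omega)
      omega
    let T : Finset ℕ := (range r).image (fun j => 2 * j)
    have hT3 : ∀ j ∈ T, j < m := by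
      intro j hj
      obtain ⟨j0, hj0, rfl⟩ := Finset.mem_image.1 hj
      have := Finset.mem_range.1 hj0
      omega
    have hT4 : ∀ j ∈ T, j % 2 = 0 := by
      intro j hj
      obtain ⟨j0, hj0, rfl⟩ := Finset.mem_image.1 hj
      omega
    have hTc : T.card = r := by
      simp only [T]
      rw [Finset.card_image_of_injective _ (fun a b hab => by
        have : 2 * a = 2 * b := hab
        omega), Finset.card_range]
    have hst := stable_image hg hT3 (fun j hj l hl => (hT4 j hj).trans (hT4 l hl).symm) (by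
      intro j hj l hl hjn hl0
      have h1 := (hY j (hT3 j hj)).2
      omega)
    refine ⟨T.image g, ⟨hst.2.trans hTc, hst.1⟩, ?_, hAB T hT3 ⟨0, hT4⟩⟩
    rintro ⟨S', ⟨-, hS'⟩, heq⟩
    have m0 : g 0 ∈ T.image g := Finset.mem_image_of_mem g
      (Finset.mem_image.2 ⟨0, Finset.mem_range.2 (by omega), rfl⟩)
    have m2 : g 2 ∈ T.image g := Finset.mem_image_of_mem g
      (Finset.mem_image.2 ⟨1, Finset.mem_range.2 (by omega), rfl⟩)
    rw [heq] at m0 m2
    obtain ⟨i, hi, hi'⟩ := Finset.mem_image.1 m0
    obtain ⟨j, hj, hj'⟩ := Finset.mem_image.1 m2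
    have e1 := congrArg Fin.val hi'
    have e2 := congrArg Fin.val hj'
    rw [g0] at e1
    rw [g2] at e2
    simp only [em] at e1 e2
    have hi1 : i.val = 1 := by split_ifs at e1 <;> omega
    have hj1 : j.val = 2 := by split_ifs at e2 <;> omega
    have := hS' i hi j hj
    rw [hi1, hj1, Nat.mod_eq_of_lt (by omega)] at this
    exact this rfl

end

/-- The two families, `b ≥ 3`. -/
theorem sg_parts {n r a b : ℕ} (hr : 2 ≤ r) (ha : 2 ≤ a) (hb : 3 ≤ b)
    (hn : a + b + 2 * r = n + 3) :
    ∃ F : Set {S : Finset (Fin n) // S.card = r ∧ Stable S},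
      ¬ ((schrijver n r).induce F).Colorable (a - 1) ∧
      ¬ ((schrijver n r).induce Fᶜ).Colorable (b - 1) := by
  classical
  obtain ⟨m, hm⟩ : ∃ m, m + 2 = a + 2 * r := ⟨a + 2 * r - 2, by omega⟩
  have hmn : m + 2 ≤ n := by omega
  refine ⟨{S | ∃ S' : Finset (Fin m), (S'.card = r ∧ Stable S') ∧ S.1 = S'.image (em hmn)},
    ?_, ?_⟩
  · rintro ⟨ψ⟩
    have hmem : ∀ S' : {S : Finset (Fin m) // S.card = r ∧ Stable S},
        (S'.1.image (em hmn)).card = r ∧ Stable (S'.1.image (em hmn)) := fun S' =>
      ⟨by rw [Finset.card_image_of_injective _ (em_inj hmn), S'.2.1], em_stable hmn S'.2.2⟩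
    have := sg_bound (m := m) (r := r) (N := a - 1) (by omega) (by omega)
      (fun S' => (ψ ⟨⟨S'.1.image (em hmn), hmem S'⟩, S'.1, S'.2, rfl⟩).val)
      (fun S' => Fin.isLt _) (by
        intro u v huv heq
        have hd : Disjoint (u.1.image (em hmn)) (v.1.image (em hmn)) :=
          (Finset.disjoint_image (em_inj hmn)).2 huv
        refine ψ.valid (v := ⟨⟨u.1.image (em hmn), hmem u⟩, u.1, u.2, rfl⟩)
          (w := ⟨⟨v.1.image (em hmn), hmem v⟩, v.1, v.2, rfl⟩) ?_ (Fin.ext heq)
        show (schrijver n r).Adj _ _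
        rw [schrijver, kneser, SimpleGraph.fromRel_adj]
        refine ⟨?_, Or.inl hd⟩
        intro h
        have h' : u.1.image (em hmn) = v.1.image (em hmn) := congrArg Subtype.val h
        rw [h', disjoint_self] at hd
        have hc := (hmem v).1
        rw [Finset.bot_eq_empty.symm.trans hd.symm |>.symm] at hc
        simp at hc
        omega)
    omega
  · rintro ⟨ψ⟩
    set F : Set {S : Finset (Fin n) // S.card = r ∧ Stable S} :=
      {S | ∃ S' : Finset (Fin m), (S'.card = r ∧ Stable S') ∧ S.1 = S'.image (em hmn)} with hF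
    have := Fintype.ofFinite (Fᶜ : Set {S : Finset (Fin n) // S.card = r ∧ Stable S})
    have := bound_one (V := (Fᶜ : Set {S : Finset (Fin n) // S.card = r ∧ Stable S}))
      (N := b - 1) (fun v => v.1.1) (a := m) (fun v => (ψ v).val) (fun v => Fin.isLt _) (by
        intro u v huv heq
        refine ψ.valid (v := u) (w := v) ?_ (Fin.ext heq)
        show (schrijver n r).Adj _ _
        rw [schrijver, kneser, SimpleGraph.fromRel_adj]
        refine ⟨?_, Or.inl huv⟩
        intro h
        have h' : u.1.1 = v.1.1 := congrArg Subtype.val h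
        rw [h', disjoint_self] at huv
        have hc := v.1.2.1
        rw [huv] at hc
        simp at hc
        omega) (by omega) (by
        intro A B _ hAB
        obtain ⟨S, hS1, hS2, hS3⟩ := exists_second hr (by omega) hmn hAB
        rcases hS3 with h | h
        · exact Or.inl ⟨⟨⟨S, hS1⟩, hS2⟩, h⟩
        · exact Or.inr ⟨⟨⟨S, hS1⟩, hS2⟩, h⟩)
    omega

end Pool.Agent.H50.ELT
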