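import Pool.Agent.H50.ELT.Sg

/-!
# Graphs containing a Schrijver graph
-/

namespace Pool.Agent.H50.ELT

open Finset Pool.Agent.H41.ENL

theorem sg_not_colorable {n r N : ℕ} (hr : 0 < r) (hN : 1 ≤ N) (h : 2 * r + N < n + 2) :
    ¬ (schrijver n r).Colorable N := by
  rintro ⟨ψ⟩
  have := sg_bound (m := n) (r := r) (N := N) hr hN (fun v => (ψ v).val) (fun v => Fin.isLt _) (by
    intro u v huv heq
    refine ψ.valid (v := u) (w := v) ?_ (Fin.ext heq)
    rw [schrijver, kneser, SimpleGraph.fromRel_adj]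
    refine ⟨?_, Or.inl huv⟩
    rintro rfl
    rw [disjoint_self] at huv
    have hc := u.2.1
    rw [huv] at hc
    simp at hc
    omega)
  omega

theorem sg_cliqueFree {r : ℕ} (hr : 2 ≤ r) : (schrijver (2 * r + 1) r).CliqueFree 3 := by
  classical
  intro s hs
  obtain ⟨x, y, z, hxy, hxz, hyz, -⟩ := SimpleGraph.is3Clique_iff.1 hs
  have hd : ∀ u v, (schrijver (2 * r + 1) r).Adj u v → Disjoint u.1 v.1 := by
    intro u v h
    rw [schrijver, kneser, SimpleGraph.fromRel_adj] at h
    rcases h.2 with h | h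
    · exact h
    · exact h.symm
  have h1 := hd x y hxy
  have h2 := hd x z hxz
  have h3 := hd y z hyz
  have h4 : Disjoint (x.1 ∪ y.1) z.1 := Finset.disjoint_union_left.2 ⟨h2, h3⟩
  have h5 := Finset.card_le_univ ((x.1 ∪ y.1) ∪ z.1)
  rw [Finset.card_union_of_disjoint h4, Finset.card_union_of_disjoint h1, x.2.1, y.2.1, z.2.1,
    Fintype.card_fin] at h5
  omega

theorem sg_sets {n r a b : ℕ} (hr : 2 ≤ r) (ha : 2 ≤ a) (hb : 2 ≤ b)
    (hn : a + b + 2 * r = n + 3) :
    ∃ S T : Set {S : Finset (Fin n) // S.card = r ∧ Stable S}, Disjoint S T ∧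
      ¬ ((schrijver n r).induce S).Colorable (a - 1) ∧
      ¬ ((schrijver n r).induce T).Colorable (b - 1) := by
  classical
  rcases Nat.lt_or_ge b 3 with h | h
  · rcases Nat.lt_or_ge a 3 with h' | h'
    · have ha2 : a = 2 := by omega
      have hb2 : b = 2 := by omega
      subst ha2 hb2
      have hn2 : n = 2 * r + 1 := by omega
      subst hn2
      have hnc : ¬ (schrijver (2 * r + 1) r).Colorable (2 + 2 - 2) :=
        sg_not_colorable (by omega) (by norm_num) (by omega)
      have hcf := sg_cliqueFree hr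
      have h2 : ¬ (schrijver (2 * r + 1) r).CliqueFree 2 := by
        intro h2
        apply hnc
        have h1 : (schrijver (2 * r + 1) r).Colorable 1 := by
          refine ⟨SimpleGraph.Coloring.mk (fun _ => (0 : Fin 1)) ?_⟩
          intro u w huw
          exfalso
          refine h2 {u, w} ⟨?_, Finset.card_pair huw.ne⟩
          rw [Finset.coe_pair, SimpleGraph.isClique_pair]
          exact fun _ => huw
        exact h1.mono (by norm_num)
      obtain ⟨S, T, h3, h4, h5⟩ := split_global (schrijver (2 * r + 1) r) 2 2 (by norm_num)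
        le_rfl hnc hcf h2 (fun w s hs => absurd hs (hcf s))
      refine ⟨S, T, h3, ?_, ?_⟩
      · intro hc
        have := SimpleGraph.chromaticNumber_le_iff_colorable.2 hc
        rw [h4] at this
        have : 2 ≤ 2 - 1 := by exact_mod_cast this
        omega
      · intro hc
        have := SimpleGraph.chromaticNumber_le_iff_colorable.2 hc
        rw [h5] at this
        have : 2 ≤ 2 - 1 := by exact_mod_cast this
        omega
    · obtain ⟨F, h1, h2⟩ := sg_parts (n := n) (a := b) (b := a) hr hb h' (by omega)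
      exact ⟨Fᶜ, F, disjoint_compl_left, h2, h1⟩
  · obtain ⟨F, h1, h2⟩ := sg_parts (n := n) (a := a) (b := b) hr ha h hn
    exact ⟨F, Fᶜ, disjoint_compl_right, h1, h2⟩

/-- Graphs containing a Schrijver graph. -/
theorem split_sg {V : Type*} [Finite V] {n r a b : ℕ} (hr : 2 ≤ r) (ha : 2 ≤ a) (hb : 2 ≤ b)
    (hn : a + b + 2 * r = n + 3) (G : SimpleGraph V)
    (f : {S : Finset (Fin n) // S.card = r ∧ Stable S} → V) (hf : Function.Injective f)
    (hadj : ∀ S T : {S : Finset (Fin n) // S.card = r ∧ Stable S}, Disjoint S.1 T.1 →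
      G.Adj (f S) (f T)) : Split G a b := by
  classical
  obtain ⟨S, T, h1, h2, h3⟩ := sg_sets hr ha hb hn
  have tr : ∀ (F : Set {S : Finset (Fin n) // S.card = r ∧ Stable S}) (p : ℕ),
      (G.induce (f '' F)).Colorable p → ((schrijver n r).induce F).Colorable p := by
    rintro F p ⟨ψ⟩
    refine ⟨SimpleGraph.Coloring.mk (fun x => ψ ⟨f x.1, x.1, x.2, rfl⟩) ?_⟩
    intro x y hxy
    apply ψ.valid
    show G.Adj (f x.1) (f y.1)
    have h : (schrijver n r).Adj x.1 y.1 := hxy
    rw [schrijver, kneser, SimpleGraph.fromRel_adj] at h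
    rcases h.2 with h | h
    · exact hadj _ _ h
    · exact (hadj _ _ h).symm
  refine split_of G (f '' S) (f '' T) a b (by omega) (by omega)
    ((Set.disjoint_image_iff hf).2 h1) (fun h => h2 (tr S _ h)) (fun h => h3 (tr T _ h))

end Pool.Agent.H50.ELT
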